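import Pool.Agent.P.MP_dba3d2_lc.G.Defs
import Pool.Agent.P.MP_dba3d2_lc.B.Sc
import Pool.Agent.P.MP_dba3d2_lc.B.Iface

/-! Toolbox for chapter G: internal relations in ultrapowers, the two copies, saturation. -/

namespace Pool.Agent.P.MP_dba3d2_lc

open Filter

namespace GT

variable {Γ : HG} {a b : Amb}

section pow
variable {J : Type} (U : Ultrafilter J)

theorem mk'_pow (f : J → MM Γ a) (n : ℕ) :
    a.mk' U (fun j => f j ^ n) = (a.mk' U f : MM Γ (a.pow U)) ^ n := by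
  induction n with
  | zero => simp only [pow_zero]; exact (mk'_hom U 1).trans (map_one _)
  | succ n ih => simp only [pow_succ]; rw [mk'_mul, ih]

theorem memEp_mk' (f c : J → MM Γ a) : (a.mk' U f : MM Γ (a.pow U)) ∈ Ep (a := a.pow U) (a.mk' U c) ↔
    ∀ᶠ j in (U : Filter J), f j ∈ Ep (c j) := by
  simp only [mem_Ep, Commute, SemiconjBy]
  rw [← mk'_pow, ← mk'_mul, ← mk'_mul, mk'_eq_iff]

theorem Ep_mk' (c d : J → MM Γ a) :
    Ep (a := a.pow U) (a.mk' U c) = Ep (a := a.pow U) (a.mk' U d) ↔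
      ∀ᶠ j in (U : Filter J), Ep (c j) = Ep (d j) := by
  constructor
  · intro h
    by_contra e
    rw [← Ultrafilter.eventually_not] at e
    simp only [SetLike.ext_iff, not_forall] at e
    obtain ⟨f, hf⟩ := e.choice
    have k := SetLike.ext_iff.1 h (a.mk' U f)
    rw [memEp_mk', memEp_mk'] at k
    rcases U.em fun j => f j ∈ Ep (c j) with h1 | h1
    · obtain ⟨j, h2, h3, h4⟩ := (hf.and (h1.and (k.1 h1))).exists
      exact h2 (iff_of_true h3 h4)
    · have h5 := Ultrafilter.eventually_not.2 (mt k.2 (Ultrafilter.eventually_not.1 h1))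
      obtain ⟨j, h2, h3, h4⟩ := (hf.and (h1.and h5)).exists
      exact h2 (iff_of_false h3 h4)
  · intro h
    ext f
    obtain ⟨f, rfl⟩ := mk'_surjective U f
    rw [memEp_mk', memEp_mk']
    exact eventually_congr (h.mono fun j hj => by rw [hj])

theorem cj_mk' (x c' c : J → MM Γ a) :
    Cj (a := a.pow U) (a.mk' U x) (a.mk' U c') (a.mk' U c) ↔
      ∀ᶠ j in (U : Filter J), Cj (x j) (c' j) (c j) := by
  rw [Cj, ← mk'_inv, ← mk'_mul, ← mk'_mul, Ep_mk']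
  rfl

theorem inE_mk' (c g : J → MM Γ a) : InE (a := a.pow U) (a.mk' U c) (a.mk' U g) ↔
    ∀ᶠ j in (U : Filter J), InE (c j) (g j) := by
  rw [InE, ← mk'_pow, ← mk'_inv, ← mk'_inv, ← mk'_mul, ← mk'_mul, mk'_eq_iff, mk'_eq_iff,
    ← Ultrafilter.eventually_or]
  rfl

theorem natCast_mk' (n : ℕ) : a.mk' U (fun _ => (n : a.K)) = (n : (a.pow U).K) :=
  (mk'_kh U _).trans (map_natCast _ n)

theorem nmul_mk' (n : ℕ) (f : J → a.K) :
    a.mk' U (fun j => (n : a.K) * f j) = (n : (a.pow U).K) * a.mk' U f := by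
  rw [mk'_mulK, natCast_mk']

/-- comparison with a length of the smaller ambient -/
theorem mk'_le_kh (f : J → a.K) (t : a.K) :
    a.mk' U f ≤ (a.dg U).kh t ↔ ∀ᶠ j in (U : Filter J), f j ≤ t := by
  rw [← mk'_kh, mk'_le_iff]

theorem kh_le_mk' (f : J → a.K) (t : a.K) :
    (a.dg U).kh t ≤ a.mk' U f ↔ ∀ᶠ j in (U : Filter J), t ≤ f j := by
  rw [← mk'_kh, mk'_le_iff]

theorem ls_mk'_kh (f : J → a.K) (t : a.K) :
    Ls (a.mk' U f) ((a.dg U).kh t) ↔ ∃ n : ℕ, ∀ᶠ j in (U : Filter J), f j ≤ n * t :=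
  exists_congr fun n => by rw [← map_natCast (a.dg U).kh n, ← map_mul, mk'_le_kh]

/-- an element with finitely many values is diagonal -/
theorem mem_dg_of_finite (s : Set (MM Γ a)) (hs : s.Finite) (f : J → MM Γ a)
    (hf : ∀ᶠ j in (U : Filter J), f j ∈ s) :
    (a.mk' U f : MM Γ (a.pow U)) ∈ ((a.dg U).hom Γ).range := by
  obtain ⟨x, -, h⟩ := mk'_finite U s hs f hf
  exact ⟨x, h.symm⟩

end pow

section ext
variable (E : Ext a b) {μ : a.K} {c c' d f g p q x y : MM Γ a}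

theorem memEp_hom : E.hom Γ f ∈ Ep (E.hom Γ c) ↔ f ∈ Ep c := by
  simp only [mem_Ep, Commute, SemiconjBy]
  rw [← map_pow, ← map_mul, ← map_mul, E.hom_injective.eq_iff]

theorem Ep_coe (c d : a.I → Γ.G) :
    Ep (Germ.ofFun c : MM Γ a) = Ep (Germ.ofFun d : MM Γ a) ↔ ∀ᶠ i in (a.V : Filter a.I),
      ∀ f, f * c i ^ Γ.e = c i ^ Γ.e * f ↔ f * d i ^ Γ.e = d i ^ Γ.e * f := by
  constructor
  · intro h
    by_contra e
    rw [← Ultrafilter.eventually_not] at e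
    simp only [not_forall] at e
    obtain ⟨f, hf⟩ := e.choice
    have k := SetLike.ext_iff.1 h (Germ.ofFun f)
    rw [Bas2A.ep_coe, Bas2A.ep_coe] at k
    rcases a.V.em fun i => f i * c i ^ Γ.e = c i ^ Γ.e * f i with h1 | h1
    · obtain ⟨j, h2, h3, h4⟩ := (hf.and (h1.and (k.1 h1))).exists
      exact h2 (iff_of_true h3 h4)
    · have h5 := Ultrafilter.eventually_not.2 (mt k.2 (Ultrafilter.eventually_not.1 h1))
      obtain ⟨j, h2, h3, h4⟩ := (hf.and (h1.and h5)).exists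
      exact h2 (iff_of_false h3 h4)
  · intro h
    ext f
    induction f using Germ.inductionOn with | h f =>
    rw [Bas2A.ep_coe, Bas2A.ep_coe]
    exact eventually_congr (h.mono fun j hj => hj _)

theorem Ep_hom : Ep (E.hom Γ c) = Ep (E.hom Γ d) ↔ Ep c = Ep d := by
  induction c using Germ.inductionOn with | h c =>
  induction d using Germ.inductionOn with | h d =>
  exact (Ep_coe (c ∘ E.π) (d ∘ E.π)).trans ((Bas2A.ev E fun i =>
    ∀ f, f * c i ^ Γ.e = c i ^ Γ.e * f ↔ f * d i ^ Γ.e = d i ^ Γ.e * f).trans (Ep_coe c d).symm)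

theorem cj_hom : Cj (E.hom Γ x) (E.hom Γ c') (E.hom Γ c) ↔ Cj x c' c := by
  rw [Cj, ← map_inv, ← map_mul, ← map_mul, Ep_hom, Cj]

theorem inE_hom : InE (E.hom Γ c) (E.hom Γ g) ↔ InE c g := by
  rw [InE, ← map_pow, ← map_inv, ← map_inv, ← map_mul, ← map_mul, E.hom_injective.eq_iff,
    E.hom_injective.eq_iff, InE]

theorem on_hom : On (E.kh μ) (E.hom Γ p) (E.hom Γ x) (E.hom Γ y) ↔ On μ p x y := by
  rw [On, E.ds_hom, E.ds_hom, E.ds_hom, ← map_add, ← map_sub, E.ll_iff, On]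

theorem stab_hom : Stab (E.kh μ) (E.hom Γ p) (E.hom Γ q) (E.hom Γ g) ↔ Stab μ p q g := by
  rw [Stab, ← map_mul, ← map_mul, E.ds_hom, E.ds_hom, E.ll_iff, E.ll_iff, Stab]

theorem per_hom (h : Per μ p q) : Per (E.kh μ) (E.hom Γ p) (E.hom Γ q) := by
  obtain ⟨g, h1, h2⟩ := h
  exact ⟨E.hom Γ g, mt E.finOrder_iff.1 h1, (stab_hom E).2 h2⟩

theorem cen_hom : Cen (E.hom Γ c) ↔ Cen c := by rw [Cen, E.ln_hom, E.md_hom, E.ls_iff, Cen]

theorem std_le_range : std Γ b ≤ (E.hom Γ).range := by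
  rintro _ ⟨g, rfl⟩
  exact ⟨cst Γ a g, rfl⟩

theorem big_of_not_mem {z : MM Γ b} (h : z ∉ (E.hom Γ).range) : Big (ln z) := by
  by_contra e
  exact h (std_le_range E (mem_std_iff.2 e))

theorem kh_nonneg {t : a.K} : 0 ≤ E.kh t ↔ 0 ≤ t := by rw [← map_zero E.kh, E.kh_le]

theorem kh_pos {t : a.K} : 0 < E.kh t ↔ 0 < t := by rw [← map_zero E.kh, E.kh_lt]

theorem gc_top (hC : S_CVX) : GC (⊤ : Subgroup (MM Γ a)) :=
  hC Γ a ⊤ ⟨le_top, fun _ _ _ _ => trivial⟩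

theorem gc_range (hC : S_CVX) (hX : S_EXTGC) : GC (E.hom Γ).range := by
  rw [MonoidHom.range_eq_map]
  exact (hX Γ a b E ⊤).2 (gc_top hC)

/-- lengths of a new scale cannot be shortened -/
theorem bst_of_not_old {z : MM Γ b} (h : ¬ Old E (ln z)) : Bst (E.hom Γ).range z := by
  rintro hz _ ⟨s, rfl⟩
  rcases ll_or_ls hz.pos (ln z - ds (E.hom Γ s) z) with e | e
  · exact e
  have h1 := ds_tri 1 (E.hom Γ s) z
  have h2 := ds_tri 1 z (E.hom Γ s)
  have h3 := e.pos hz.pos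
  rw [ds_comm z] at h2
  simp only [ds, inv_one, one_mul] at h1 h2 h3 e
  refine (h ⟨ln s, ?_, 2, ?_⟩).elim
  · rw [← E.ln_hom]
    exact e.mono_right (by linarith)
  · rw [← E.ln_hom]
    push_cast
    linarith

theorem Old.congr {s t : b.K} (h : Old E s) (e : Sim t s) : Old E t :=
  h.imp fun _ k => e.trans' k

end ext

/-- pseudo-limits -/
theorem sat_ball (x : ℕ → MM Γ a) (r : ℕ → a.K) (h : ∀ n, ∃ v, ∀ m ≤ n, ds v (x m) ≤ r m) :
    ∃ v, ∀ m, ds v (x m) ≤ r m := by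
  have e : ∀ (m : ℕ) (v : Unit → MM Γ a),
      wev ((FreeGroup.of (Sum.inr ()))⁻¹ * FreeGroup.of (Sum.inl (x m))) v = (v ())⁻¹ * x m :=
    fun m v => by simp [wev]
  obtain ⟨v, hv⟩ := sat (fun m => {v : Unit → MM Γ a |
    ln (wev ((FreeGroup.of (Sum.inr ()))⁻¹ * FreeGroup.of (Sum.inl (x m))) v) ≤ r m})
    (fun m => intl_ln_le _ _) fun n => (h n).elim fun v hv => ⟨fun _ => v, fun m hm => by
      rw [Set.mem_ofPred_eq, e]
      exact hv m hm⟩
  refine ⟨v (), fun m => ?_⟩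
  have k := hv m
  rw [Set.mem_ofPred_eq, e] at k
  exact k

/-! the two copies -/

theorem cp_false_mp {X : Type} (x : Germ ((a.pow U0).V : Filter (a.pow U0).I) X) :
    (cp a false).mp x = (a.pow U0).mk' U0 fun _ => x := (mk'_const U0 x).symm

theorem cp_true_mp {X : Type} (v : ℕ → Germ (a.V : Filter a.I) X) :
    (cp a true).mp (a.mk' U0 v) = (a.pow U0).mk' U0 fun j => (a.dg U0).mp (v j) :=
  (a.dg U0).pow_mk' U0 v

theorem cp_dg_mp {X : Type} (i : Bool) (x : Germ (a.V : Filter a.I) X) :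
    (cp a i).mp ((a.dg U0).mp x) = (cp a false).mp ((a.dg U0).mp x) := by
  cases i
  · rfl
  · induction x using Germ.inductionOn; rfl

theorem cp_false (x : MM Γ (a.pow U0)) :
    (cp a false).hom Γ x = (a.pow U0).mk' U0 fun _ => x := cp_false_mp x

theorem cp_true (v : ℕ → MM Γ a) :
    (cp a true).hom Γ (a.mk' U0 v) = (a.pow U0).mk' U0 fun j => (a.dg U0).hom Γ (v j) :=
  cp_true_mp v

theorem cp_false_kh (x : (a.pow U0).K) : (cp a false).kh x = (a.pow U0).mk' U0 fun _ => x :=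
  cp_false_mp x

theorem cp_true_kh (v : ℕ → a.K) :
    (cp a true).kh (a.mk' U0 v) = (a.pow U0).mk' U0 fun j => (a.dg U0).kh (v j) := cp_true_mp v

theorem cp_dg_kh (i : Bool) (t : a.K) :
    (cp a i).kh ((a.dg U0).kh t) = (cp a false).kh ((a.dg U0).kh t) := cp_dg_mp i t

/-- the two embeddings agree on the diagonal copy -/
theorem cp_dM (i i' : Bool) {m : MM Γ (a.pow U0)} (h : m ∈ dM Γ a) :
    (cp a i).hom Γ m = (cp a i').hom Γ m := by
  obtain ⟨m, rfl⟩ := h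
  exact (cp_dg_mp i m).trans (cp_dg_mp i' m).symm

theorem cp_int {x y : MM Γ (a.pow U0)} (h : (cp a false).hom Γ x = (cp a true).hom Γ y) :
    x = y ∧ x ∈ dM Γ a := by
  obtain ⟨v, rfl⟩ := mk'_surjective U0 y
  rw [cp_false, cp_true, mk'_eq_iff] at h
  obtain ⟨j, hj⟩ := h.exists
  refine ⟨?_, v j, hj.symm⟩
  rw [hj, ← mk'_hom, mk'_eq_iff]
  exact h.mono fun k hk => (a.dg U0).hom_injective (hj.symm.trans hk)

theorem cp_int' (i : Bool) {x y : MM Γ (a.pow U0)} (h : (cp a i).hom Γ x = (cp a (!i)).hom Γ y) :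
    x ∈ dM Γ a := by
  cases i
  · exact (cp_int h).2
  · exact (cp_int h.symm).1 ▸ (cp_int h.symm).2

theorem mem_inf (i : Bool) {x : MM Γ (a.pow U0)} :
    (cp a i).hom Γ x ∈ cF Γ a false ⊓ cF Γ a true ↔ x ∈ dM Γ a := by
  refine ⟨fun h => ?_, fun h => ⟨⟨x, cp_dM _ _ h⟩, x, cp_dM _ _ h⟩⟩
  cases i
  · obtain ⟨y, hy⟩ := h.2
    exact cp_int' false hy.symm
  · obtain ⟨y, hy⟩ := h.1
    exact cp_int' true hy.symm

theorem inf_eq (i : Bool) : cF Γ a false ⊓ cF Γ a true = (dM Γ a).map ((cp a i).hom Γ) := by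
  ext z
  constructor
  · intro h
    obtain ⟨x, rfl⟩ := h.1
    exact ⟨x, (mem_inf false).1 h, cp_dM _ _ ((mem_inf false).1 h)⟩
  · rintro ⟨x, h, rfl⟩
    exact (mem_inf i).2 h

/-- common scales of the two copies are old -/
theorem cp_scale {x y : (a.pow U0).K} (h : Sim ((cp a false).kh x) ((cp a true).kh y)) :
    ∃ l : a.K, Sim x ((a.dg U0).kh l) ∧ Sim y ((a.dg U0).kh l) := by
  obtain ⟨v, rfl⟩ := mk'_surjective U0 y
  have h0 := h
  obtain ⟨⟨n, h1⟩, m, h2⟩ := h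
  rw [cp_false_kh, cp_true_kh, ← nmul_mk', mk'_le_iff] at h1 h2
  obtain ⟨j, k1, k2⟩ := (h1.and h2).exists
  have e : Sim x ((a.dg U0).kh (v j)) := ⟨⟨n, k1⟩, m, k2⟩
  refine ⟨v j, e, (cp a true).sim_iff.1 ?_⟩
  rw [cp_dg_kh]
  exact h0.symm'.trans' ((cp a false).sim_iff.2 e)

theorem cp_scale' (i : Bool) {x y : (a.pow U0).K} (h : Sim ((cp a i).kh x) ((cp a (!i)).kh y)) :
    ∃ l : a.K, Sim x ((a.dg U0).kh l) ∧ Sim y ((a.dg U0).kh l) := by
  cases i
  · exact cp_scale h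
  · exact (cp_scale h.symm').imp fun _ k => k.symm

end GT

end Pool.Agent.P.MP_dba3d2_lc
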