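import Pool.Agent.P.MP_dba3d2_lc.G.Iface
import Pool.Agent.P.MP_dba3d2_lc.A.Bas2

/-! Definitions for chapter G. -/

namespace Pool.Agent.P.MP_dba3d2_lc

open Filter

variable {Γ : HG} {a b : Amb}

/-- the identity is an almost closest point of `M` to `z` -/
def Bst (M : Subgroup (MM Γ a)) (z : MM Γ a) : Prop :=
  Big (ln z) → ∀ s ∈ M, Ll (ln z - ds s z) (ln z)

/-- lengths whose scale comes from the smaller ambient -/
def Old (E : Ext a b) (x : b.K) : Prop := ∃ l : a.K, Sim x (E.kh l)

/-- the diagonal copy of the ambient group in its ultrapower -/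
noncomputable abbrev dM (Γ : HG) (a : Amb) : Subgroup (MM Γ (a.pow U0)) := ((a.dg U0).hom Γ).range

/-- the two copies of the ultrapower, as subgroups of the double ultrapower -/
noncomputable abbrev cF (Γ : HG) (a : Amb) (i : Bool) : Subgroup (MM Γ ((a.pow U0).pow U0)) :=
  ((cp a i).hom Γ).range

end Pool.Agent.P.MP_dba3d2_lc
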