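import Pool.Agent.P.MP_dba3d2_lc.G.Iface2
import Pool.Agent.P.MP_dba3d2_lc.G.Tb
import Pool.Agent.P.MP_dba3d2_lc.B.Tre

/-! Step G_BEST1 of the stability project. -/

namespace Pool.Agent.P.MP_dba3d2_lc

open Filter

open GT in
theorem p_G_BEST1 (hG_PROJ : S_G_PROJ) (hG_LEAST : S_G_LEAST) :
    S_G_BEST1 := by
  intro Γ a z
  by_cases hz : z ∈ dM Γ a
  · refine ⟨z, hz, fun h => ?_⟩
    rw [inv_mul_cancel, ln_one] at h
    exact absurd h.pos (lt_irrefl _)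
  set E := a.dg U0 with hE
  have hnm : ∀ s : MM Γ a, (E.hom Γ s)⁻¹ * z ∉ dM Γ a := fun s h =>
    hz (by simpa using mul_mem (⟨s, rfl⟩ : E.hom Γ s ∈ dM Γ a) h)
  have hbig : ∀ s : MM Γ a, Big (ds (E.hom Γ s) z) := fun s => big_of_not_mem E (hnm s)
  by_cases hold : ∀ s : MM Γ a, Old E (ds (E.hom Γ s) z)
  swap
  · obtain ⟨s, hs⟩ := not_forall.1 hold
    exact ⟨_, ⟨s, rfl⟩, bst_of_not_old E hs⟩
  obtain ⟨f, hf⟩ := mk'_surjective U0 z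
  obtain ⟨x0, hx0⟩ := hG_LEAST Γ a _ E Unit (fun x => ds (E.hom Γ (x ())) z)
    (Set.range fun k _ => f k) (Set.countable_range _) (fun x => (hbig _).pos) (fun x => hold _)
    (fun x y h => by
      have h1 := h ()
      rw [← E.ds_hom] at h1
      exact Ls.mono_left (ds_tri _ (E.hom Γ (y ())) _) (h1.add (Ls.refl' _)))
    (fun x y i => by
      rw [← E.ds_hom]
      exact Ls.of_le ((ds_tri _ z _).trans_eq (by rw [ds_comm z])))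
    (fun x => by
      obtain ⟨l, hl⟩ := hold (x ())
      have h1 := hl.1
      rw [← hf, ← mk'_hom, ds_mk', ls_mk'_kh] at h1
      obtain ⟨n, hn⟩ := h1
      obtain ⟨k, hk⟩ := hn.exists
      refine ⟨_, ⟨k, rfl⟩, Ls.mono_left (ds_tri _ (E.hom Γ (x ())) _) (Ls.add ?_ (Ls.refl' _))⟩
      rw [E.ds_hom, ds_comm]
      exact (E.ls_iff.2 ⟨n, hk⟩).trans' hl.2)
  obtain ⟨l, hl⟩ := hold (x0 ())
  have hlb : Big (E.kh l) := (hbig _).of_ls hl.1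
  obtain ⟨s1, h1, h2⟩ := hG_PROJ Γ a _ E l ((E.hom Γ (x0 ()))⁻¹ * z) (E.big_iff.1 hlb) hl.1
  have e : ∀ s : MM Γ a, ds (E.hom Γ s) ((E.hom Γ (x0 ()))⁻¹ * z) = ds (E.hom Γ (x0 () * s)) z :=
    fun s => by rw [map_mul, ← ds_mul_left (E.hom Γ (x0 ())), mul_inv_cancel_left]
  refine ⟨E.hom Γ (x0 () * s1), ⟨_, rfl⟩, fun hb => ?_⟩
  rintro _ ⟨m, rfl⟩
  have h3 : Ls (E.kh l) (ds (E.hom Γ (x0 () * s1)) z) := hl.2.trans' (hx0 fun _ => x0 () * s1)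
  have h4 := (h2 (s1 * m)).ls_right h3 (ds_nonneg _ _)
  rw [e, e, ← mul_assoc, map_mul (E.hom Γ) (x0 () * s1) m] at h4
  have e2 : ds (E.hom Γ m) ((E.hom Γ (x0 () * s1))⁻¹ * z) =
      ds (E.hom Γ (x0 () * s1) * E.hom Γ m) z := by
    rw [← ds_mul_left (E.hom Γ (x0 () * s1)), mul_inv_cancel_left]
  rw [e2]
  exact h4

end Pool.Agent.P.MP_dba3d2_lc
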