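import Pool.Agent.P.MP_dba3d2_lc.G.Iface2
import Pool.Agent.P.MP_dba3d2_lc.B.Iface
import Pool.Agent.P.MP_dba3d2_lc.G.Tb
import Pool.Agent.P.MP_dba3d2_lc.B.Tre

/-! Step G_BEST2 of the stability project. -/

namespace Pool.Agent.P.MP_dba3d2_lc

open Filter

namespace G_best2

variable {Γ : HG} {a b : Amb}

theorem two (hP : S_G_PROJ) (E : Ext a b) (y0 : MM Γ b) (l : a.K) (hl : Big l)
    (h1 : Ls (ln y0) (E.kh l)) (h2 : ∀ s s', Ls (E.kh l) (ln (E.hom Γ s * y0 * E.hom Γ s'))) :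
    ∃ s s', Bst (E.hom Γ).range (E.hom Γ s * y0 * E.hom Γ s')⁻¹ ∧
      Bst (E.hom Γ).range (E.hom Γ s * y0 * E.hom Γ s') := by
  obtain ⟨s1, -, m1⟩ := hP Γ a b E l y0 hl h1
  set y1 := (E.hom Γ s1)⁻¹ * y0 with hy1
  have e1 : ∀ t, ds (E.hom Γ (s1 * t)) y0 = ds (E.hom Γ t) y1 := fun t => by
    rw [ds, ds, hy1, map_mul, mul_inv_rev, mul_assoc]
  have e0 : ds (E.hom Γ s1) y0 = ln y1 := rfl
  have k1 : Ls (ln y1⁻¹) (E.kh l) := by
    have := (m1 1).ls.add h1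
    rwa [map_one, ds_one_left, e0, sub_add_cancel, ← ln_inv] at this
  obtain ⟨s2, o2, m2⟩ := hP Γ a b E l y1⁻¹ hl k1
  have e2 : ∀ t, ds (E.hom Γ (s2 * t)) y1⁻¹ = ds (E.hom Γ t) (y1 * E.hom Γ s2)⁻¹ := fun t => by
    rw [ds, ds, map_mul, mul_inv_rev, mul_inv_rev y1, mul_assoc]
  have e3 : ds (E.hom Γ s2) y1⁻¹ = ln (y1 * E.hom Γ s2) := by
    rw [ds, ← mul_inv_rev, ln_inv]
  have k2 := h2 s1⁻¹ s2
  rw [map_inv, ← hy1] at k2
  refine ⟨s1⁻¹, s2, ?_, ?_⟩ <;> rw [map_inv, ← hy1] <;> rintro - _ ⟨t, rfl⟩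
  · rw [ln_inv, ← e2, ← e3]
    exact (m2 _).ls_right (e3 ▸ k2) (ds_nonneg _ _)
  · have a1 := m1 (s1 * t)
    rw [On, ds_one_left, ds_one_left, e3, ln_inv] at o2
    rw [e0, e1] at a1
    have a2 := ds_tri (E.hom Γ t) (y1 * E.hom Γ s2) y1
    have a3 : ds (y1 * E.hom Γ s2) y1 = ln (E.hom Γ s2) := by
      rw [ds_comm, ds, inv_mul_cancel_left]
    exact ((o2.add a1).mono_left (by linarith)).ls_right k2 (ln_nonneg _)

theorem lip (y u u' v v' : MM Γ b) : ds u (y * u') ≤ ds u v + ds u' v' + ds v (y * v') := by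
  have h1 := ds_tri u v (y * u')
  have h2 := ds_tri v (y * v') (y * u')
  rw [ds_mul_left, ds_comm v'] at h2
  linarith

end G_best2

open G_best2 GT in
theorem p_G_BEST2 (hCVX : S_CVX) (hEXTGC : S_EXTGC) (hG_PROJ : S_G_PROJ) (hG_LEAST : S_G_LEAST) (hG_COH : S_G_COH) (hG_COIN : S_G_COIN) :
    S_G_BEST2 := by
  intro Γ a y hy hE
  set E := a.dg U0 with hEE
  have nm : ∀ u u' : MM Γ a, (E.hom Γ u)⁻¹ * y * E.hom Γ u' ∉ dM Γ a := fun u u' h => hy (by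
    have := mul_mem (mul_mem (show E.hom Γ u ∈ dM Γ a from ⟨u, rfl⟩) h)
      (inv_mem (show E.hom Γ u' ∈ dM Γ a from ⟨u', rfl⟩))
    simpa [mul_assoc] using this)
  by_cases ho : ∀ u u' : MM Γ a, Old E (ds (E.hom Γ u) (y * E.hom Γ u'))
  swap
  · obtain ⟨u, u', h⟩ : ∃ u u' : MM Γ a, ¬ Old E (ds (E.hom Γ u) (y * E.hom Γ u')) := by
      simpa using ho
    rw [ds, ← mul_assoc] at h
    exact ⟨_, inv_mem ⟨u, rfl⟩, _, ⟨u', rfl⟩, bst_of_not_old E (by rwa [ln_inv]),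
      bst_of_not_old E h⟩
  obtain ⟨C, hC, hC'⟩ := hG_COIN Γ a y hy hE
  have coh := (hG_COH Γ _ _ (gc_range E hCVX hEXTGC).toGC0).1 y hy hE
  obtain ⟨x, hx⟩ := hG_LEAST Γ a _ E Bool
    (fun x => ds (E.hom Γ (x false)) (y * E.hom Γ (x true)))
    ((fun v : MM Γ a × MM Γ a => fun i : Bool => cond i v.2 v.1) '' C) (hC.image _)
    (fun x => by
      rw [ds, ← mul_assoc]
      exact (big_of_not_mem E (nm _ _)).pos)
    (fun x => ho _ _)
    (fun x z h => by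
      have h0 := h false
      have h1 := h true
      rw [← E.ds_hom] at h0 h1
      exact ((h0.add h1).add (Ls.refl' _)).mono_left (lip _ _ _ _ _))
    (fun x z i => by
      have := coh _ ⟨x false, rfl⟩ _ ⟨x true, rfl⟩ _ ⟨z false, rfl⟩ _ ⟨z true, rfl⟩
      rw [← E.ds_hom]
      cases i
      · exact this.1
      · exact this.2)
    (fun x => by
      obtain ⟨v, hv, h⟩ := hC' _ _ (ho (x false) (x true))
      exact ⟨_, ⟨v, hv, rfl⟩, h⟩)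
  obtain ⟨l, hl⟩ := ho (x false) (x true)
  rw [ds, ← mul_assoc] at hl
  obtain ⟨s, s', h⟩ := two hG_PROJ E ((E.hom Γ (x false))⁻¹ * y * E.hom Γ (x true)) l
    (E.big_iff.1 ((big_of_not_mem E (nm _ _)).of_ls hl.1)) hl.1 fun s s' => by
      have := hx fun i => cond i (x true * s') (x false * s⁻¹)
      simp only [ds, cond_true, cond_false, map_mul, map_inv, mul_inv_rev, inv_inv,
        ← mul_assoc] at this ⊢
      exact hl.2.trans' this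
  refine ⟨E.hom Γ s * (E.hom Γ (x false))⁻¹, mul_mem ⟨s, rfl⟩ (inv_mem ⟨_, rfl⟩),
    E.hom Γ (x true) * E.hom Γ s', mul_mem ⟨_, rfl⟩ ⟨s', rfl⟩, ?_⟩
  simpa only [mul_assoc] using h

end Pool.Agent.P.MP_dba3d2_lc
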