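import Pool.Agent.P.MP_dba3d2_lc.G.Iface2
import Pool.Agent.P.MP_dba3d2_lc.A.Iface
import Pool.Agent.P.MP_dba3d2_lc.B.Iface
import Pool.Agent.P.MP_dba3d2_lc.G.Tb
import Pool.Agent.P.MP_dba3d2_lc.B.Axis

/-! Step G_BEST3 of the stability project. -/

namespace Pool.Agent.P.MP_dba3d2_lc

open Filter GT

namespace G_best3

variable {Γ : HG} {a : Amb}

theorem lemA (hL : S_LINE) {c f : MM Γ a} (hp : Prim c) (hc : Cen c) (hf : f ∈ Ep c)
    (x : MM Γ a) : Ls (ds x (c * x)) (ln (f * x) + md c) := by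
  obtain ⟨k, hk⟩ := hp.2 f⁻¹ (inv_mem hf)
  rw [inv_inv] at hk
  have h1 := tors_disp hL hp.1 (mul_mem hf (ipow_mem_Ep c k)) hk 1
  rw [ds_one_mul, ds_one_mul] at h1
  have h2 := disp_le c x f⁻¹
  have h3 := disp_ipow c k (f * ipow c k)⁻¹
  rw [show ipow c k * (f * ipow c k)⁻¹ = f⁻¹ by group] at h3
  have h4 := disp_le c (f * ipow c k)⁻¹ 1
  rw [ds_one_right, ln_inv, ds_one_mul] at h4
  have h5 : ds x f⁻¹ = ln (f * x) := by rw [ds, ← ln_inv, mul_inv_rev, inv_inv, inv_inv]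
  have h6 : md c ≤ ln (f * x) + md c := le_add_of_nonneg_left (ln_nonneg _)
  have h7 : Ls (ln c) (ln (f * x) + md c) := Ls.mono_right hc h6
  refine Ls.mono_left (y := 2 * ln (f * x) + (2 * ln (f * ipow c k) + ln c)) (by linarith) ?_
  exact (Ls.of_le (le_add_of_nonneg_right (md_nonneg c))).two.add ((h1.trans' h7).two.add h7)

end G_best3

open G_best3 in
theorem p_G_BEST3 (hELEM : S_ELEM) (hLINE : S_LINE) (hCVX : S_CVX) (hNORM : S_NORM) (hG_PROJ : S_G_PROJ) (hG_BEST1 : S_G_BEST1) (hG_LE3 : S_G_LE3) :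
    S_G_BEST3 := by
  intro Γ a c y hp hc hn
  have hN : ∀ s, ∃ f ∈ Ep c, Ls (ln (f * y * s)) (ds s (y⁻¹ * c * y * s)) ∧
      NE c (f * y * s)⁻¹ := by
    intro s
    obtain ⟨g, -, g1, g2, g3⟩ := (hNORM Γ _ ⊤ (gc_top hCVX).toGC0).1 c trivial hp hc (y * s)⁻¹
      trivial
    have e : (g⁻¹ * y * s)⁻¹ = (y * s)⁻¹ * g := by group
    refine ⟨g⁻¹, inv_mem g1, ?_, e ▸ g3⟩
    rw [← ln_inv, e, ds_conj, show s⁻¹ * (y⁻¹ * c * y) * s = (y * s)⁻¹ * c * (y * s)⁻¹⁻¹ by group]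
    exact g2
  choose F hF1 hF2 hF3 using hN
  have hA : ∀ f ∈ Ep c, ∀ s, Ls (ds s (y⁻¹ * c * y * s)) (ln (f * y * s) + md c) := by
    intro f hf s
    rw [disp_conj', mul_assoc f]
    exact lemA hLINE hp hc hf _
  by_cases A : ∃ s ∈ dM Γ a, Ls (ln (F s * y * s)) (md c)
  · obtain ⟨s0, m0, h0⟩ := A
    obtain ⟨s, ms, hs⟩ := hG_BEST1 Γ a (F s0 * y * s0)⁻¹
    have e : (F s0 * y * (s0 * s))⁻¹ = s⁻¹ * (F s0 * y * s0)⁻¹ := by group
    refine ⟨F s0, hF1 s0, s0 * s, mul_mem m0 ms, e ▸ hs, ?_⟩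
    rw [e]
    intro big ll _
    have h1 := hs big s⁻¹ (inv_mem ms) 2
    rw [ds_mul_right, ln_inv (F s0 * y * s0)] at h1
    push_cast at h1
    exact ll.not_ls big.pos (Ls.mono_left (by linarith) h0.two)
  have B : ∀ s ∈ dM Γ a, Ll (md c) (ln (F s * y * s)) := fun s ms =>
    (not_ls_iff (md_nonneg c) (lt_of_not_ge fun h =>
      A ⟨s, ms, Ls.of_le (h.trans (md_nonneg c))⟩)).1 fun h => A ⟨s, ms, h⟩
  have S : ∀ s ∈ dM Γ a, Sim (ln (F s * y * s)) (ds s (y⁻¹ * c * y * s)) := fun s ms =>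
    ⟨hF2 s, (hA _ (hF1 s) s).trans' ((Ls.refl' _).add (B s ms).ls)⟩
  by_cases O : ∀ s ∈ dM Γ a, Old (a.dg U0) (ds s (y⁻¹ * c * y * s))
  swap
  · simp only [not_forall] at O
    obtain ⟨s, ms, hs⟩ := O
    refine ⟨F s, hF1 s, s, ms, bst_of_not_old _ fun h => hs (Old.congr _ h ?_), hF3 s⟩
    rw [ln_inv]
    exact (S s ms).symm'
  obtain ⟨s0, m0, least⟩ := hG_LE3 Γ a _ (hp.conj' y) hn O
  obtain ⟨l, hl⟩ := O s0 m0
  have S0 := (S s0 m0).trans' hl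
  have b0 : Big (ln (F s0 * y * s0)) := big_iff_ll.2 (Ll.mono_left (one_le_md' hp.1) (B s0 m0))
  have bl : Big ((a.dg U0).kh l) := b0.of_ls S0.1
  have ml : Ll (md c) ((a.dg U0).kh l) := (B s0 m0).ls_right S0.1 bl.pos.le
  obtain ⟨s1, on, mn⟩ := hG_PROJ Γ a _ (a.dg U0) l (F s0 * y * s0)⁻¹ ((a.dg U0).big_iff.1 bl)
    (by rw [ln_inv]; exact S0.1)
  have m1 : s0 * (a.dg U0).hom Γ s1 ∈ dM Γ a := mul_mem m0 ⟨s1, rfl⟩
  have e : (F s0 * y * (s0 * (a.dg U0).hom Γ s1))⁻¹ =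
      ((a.dg U0).hom Γ s1)⁻¹ * (F s0 * y * s0)⁻¹ := by group
  have e1 : ln (F s0 * y * (s0 * (a.dg U0).hom Γ s1))⁻¹ =
      ds ((a.dg U0).hom Γ s1) (F s0 * y * s0)⁻¹ := by rw [e, ds]
  have S1 : Sim (ln (F s0 * y * (s0 * (a.dg U0).hom Γ s1))⁻¹) ((a.dg U0).kh l) := by
    constructor
    · have h1 := (mn 1).ls.add S0.1
      rw [map_one, ds_one_left, ln_inv, sub_add_cancel] at h1
      rwa [e1]
    · rw [ln_inv]
      exact ((hl.2.trans' (least _ m1)).trans' (hA _ (hF1 s0) _)).add_cases.resolve_right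
        (ml.not_ls bl.pos)
  refine ⟨F s0, hF1 s0, _, m1, ?_, ?_⟩
  · rintro big _ ⟨s', rfl⟩
    have h1 := mn (s1 * s')
    rw [← e1, map_mul, ← ds_mul_left ((a.dg U0).hom Γ s1)⁻¹, inv_mul_cancel_left, ← e] at h1
    exact h1.ls_right S1.2 big.pos.le
  · intro big _ fol
    rw [S1.fol_iff big.pos.le bl.pos.le, inv_inv] at fol
    have h1 := (on.mul (F s0 * y * s0)).symm
    rw [mul_one, mul_inv_cancel, mul_assoc (F s0 * y)] at h1
    refine hF3 s0 (by rwa [ln_inv]) (by rw [ln_inv]; exact B s0 m0) ?_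
    rw [ln_inv, inv_inv, S0.fol_iff b0.pos.le bl.pos.le]
    exact fol.mono h1

end Pool.Agent.P.MP_dba3d2_lc
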