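import Pool.Agent.P.MP_dba3d2_lc.G.Iface2
import Pool.Agent.P.MP_dba3d2_lc.A.Iface
import Pool.Agent.P.MP_dba3d2_lc.B.Iface
import Pool.Agent.P.MP_dba3d2_lc.B.Axis2

/-! Step G_COH of the stability project. -/

namespace Pool.Agent.P.MP_dba3d2_lc

open Filter

theorem p_G_COH (hELEM : S_ELEM) (hPERC : S_PERC) (hROOT : S_ROOT) :
    S_G_COH := by
  intro Γ a H hH
  obtain ⟨-, -, -, r4, -, r6⟩ := hROOT Γ a H hH
  refine ⟨fun y hy hE u hu u' hu' v hv v' hv' => ?_, fun c hc hcH s hs t ht => ?_,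
    fun c d s t hc hd hne => ?_⟩
  · have n1 := ds_nonneg u (y * u')
    have n2 := ds_nonneg v (y * v')
    have t1 := ds_tri (y * u') u (y * v')
    have t2 := ds_tri u v (y * v')
    have t3 := ds_tri u (y * u') v
    have t4 := ds_tri (y * u') (y * v') v
    rw [ds_mul_left] at t1 t4
    rw [ds_comm (y * u') u] at t1
    rw [ds_comm (y * v') v] at t4
    have key : Ls (ds u v) (ds u (y * u') + ds v (y * v')) := by
      refine ls_of_scale ?_ fun hμ hT => ?_
      · have : 1 ≤ ds u (y * u') := one_le_ln fun e => hy (by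
          rw [← mul_inv_eq_iff_eq_mul.2 (inv_mul_eq_one.1 e)]
          exact H.mul_mem hu (H.inv_mem hu'))
        linarith
      have a1 : Ll (ds u (y * u')) (ds u v) := hT.mono_left (by linarith)
      have a2 : Ll (ds v (y * v')) (ds u v) := hT.mono_left (by linarith)
      have a3 : Ll (ds (y * u') u) (ds u v) := by rwa [ds_comm]
      have a4 : Ll (ds (y * v') v) (ds u v) := by rwa [ds_comm]
      have b1 : Ls (ds u' v') (ds u v) :=
        (hT.ls.add (Ls.refl' _)).mono_left (by linarith)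
      have b2 : Ls (ds u v) (ds u' v') :=
        (Ls.refl' _).of_le_add hT hμ.pos 1 (by push_cast; linarith)
      by_cases hp : Per (ds u v) u v
      · obtain ⟨c, c1, c2, c3⟩ := hH.g20' hμ hu hv (Ls.refl' _) (Ls.refl' _)
          (on_left hμ.pos.le _ _) (on_right hμ.pos.le _ _) hp
        obtain ⟨c', d1, d2, d3⟩ := hH.g20' hμ hu' hv' b1 b2 (on_left hμ.pos.le _ _)
          (on_right hμ.pos.le _ _) ((per_mul_iff y).1 (hp.congr a1 a2))
        obtain ⟨h, h1, h2⟩ := r6 c c1 c' d1 c2.1 d2.1 y (Ep_eq_of_stab hELEM hPERC hμ (Ls.refl' _)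
          (d2.conj y).1 c2.1 (((stab_conj y).2 d3).congr a3 a4) c3)
        exact hE ⟨1, H.one_mem, h, h1, c, c1, c2, _, h2, by simp⟩
      · exact hy (hH.g2' hμ hu hv hu' hv' (Ls.refl' _) b1 ⟨Ls.refl' _, on_left hμ.pos.le _ _,
          on_right hμ.pos.le _ _, On.of_near a3 _, (On.of_near a4 _).symm⟩ hp)
    exact ⟨key, (key.add (Ls.refl' _)).mono_left (by linarith)⟩
  · have n1 := ds_nonneg s (c * s)
    have n2 := ds_nonneg t (c * t)
    refine ls_of_scale (by linarith [one_le_md' hc.1, md_le_ds c s]) fun hμ hT => ?_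
    have a1 : Stab (ds s t) s t c := ⟨hT.mono_left (by linarith), hT.mono_left (by linarith)⟩
    obtain ⟨c', d1, d2, d3⟩ := hH.g20' hμ hs ht (Ls.refl' _) (Ls.refl' _)
      (on_left hμ.pos.le _ _) (on_right hμ.pos.le _ _) ⟨c, hc.1, a1⟩
    exact hcH (r4 c' d1 d2.1 c hc (Ep_eq_of_stab hELEM hPERC hμ (Ls.refl' _) hc.1 d2.1 a1 d3))
  · have n1 := ds_nonneg s (c * s)
    have n2 := ds_nonneg t (c * t)
    have n3 := ds_nonneg s (d * s)
    have n4 := ds_nonneg t (d * t)
    refine ls_of_scale (by linarith [one_le_md' hc, md_le_ds c s]) fun hμ hT => ?_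
    exact hne (Ep_eq_of_stab hELEM hPERC hμ (Ls.refl' _) hc hd
      ⟨hT.mono_left (by linarith), hT.mono_left (by linarith)⟩
      ⟨hT.mono_left (by linarith), hT.mono_left (by linarith)⟩)

end Pool.Agent.P.MP_dba3d2_lc
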