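import Pool.Agent.P.MP_dba3d2_lc.G.Iface2
import Pool.Agent.P.MP_dba3d2_lc.A.Iface
import Pool.Agent.P.MP_dba3d2_lc.B.Iface
import Pool.Agent.P.MP_dba3d2_lc.G.Tb
import Pool.Agent.P.MP_dba3d2_lc.B.Axis

/-! Step G_COIN of the stability project. -/

namespace Pool.Agent.P.MP_dba3d2_lc

open Filter GT

theorem p_G_COIN (hTORS : S_TORS) (hELEM : S_ELEM) (hCVX : S_CVX) (hEXTGC : S_EXTGC) (hROOT : S_ROOT) (hG_COH : S_G_COH) :
    S_G_COIN := by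
  intro Γ a y hy hE
  obtain ⟨y, rfl⟩ := mk'_surjective U0 y
  choose t ht using fun d1 d2 : MM Γ a => exists_min_disp d1 d2
  have : Countable (FreeGroup ℕ) := FreeGroup.toWord_injective.countable
  refine ⟨Set.range fun z : FreeGroup ℕ × FreeGroup ℕ × ℕ =>
    (t (FreeGroup.lift y z.1) (FreeGroup.lift y z.2.1),
      (y z.2.2)⁻¹ * t (FreeGroup.lift y z.1) (FreeGroup.lift y z.2.1)), Set.countable_range _,
    fun u u' ⟨l, hl⟩ => ?_⟩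
  have hM := (gc_range (Γ := Γ) (a.dg U0) hCVX hEXTGC).toGC0
  have l0 : 0 < l := by
    refine (kh_pos (a.dg U0)).1 (hl.1.pos (one_pos.trans_le (one_le_ln fun e => hy ?_)))
    rw [inv_mul_eq_one, ← mul_inv_eq_iff_eq_mul] at e
    exact e ▸ mul_mem ⟨u, rfl⟩ (inv_mem ⟨u', rfl⟩)
  have h1 := hl.1
  rw [← mk'_hom, ← mk'_hom, ← mk'_mul, ds_mk', ls_mk'_kh] at h1
  obtain ⟨n, hn⟩ := h1
  obtain ⟨i0, hi0⟩ := hn.exists
  have gen : ∀ i, ds u (y i * u') ≤ n * l → ds u (y i * (y i0)⁻¹ * u) ≤ 2 * (n * l) := fun i hi => by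
    have e : ds (y i * u') (y i * (y i0)⁻¹ * u) = ds u (y i0 * u') := by
      rw [mul_assoc, ds_mul_left, ← ds_mul_left (y i0), mul_inv_cancel_left, ds_comm]
    linarith [ds_tri u (y i * u') (y i * (y i0)⁻¹ * u)]
  let G := Subgroup.closure {g | ∃ i, ds u (y i * u') ≤ n * l ∧ g = y i * (y i0)⁻¹}
  have mG : ∀ i, ds u (y i * u') ≤ n * l → y i * (y i0)⁻¹ ∈ G := fun i hi =>
    Subgroup.subset_closure ⟨i, hi, rfl⟩
  have GS : G ≤ (FreeGroup.lift y).range := (Subgroup.closure_le _).2 (by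
    rintro _ ⟨i, -, rfl⟩
    exact mul_mem ⟨.of i, FreeGroup.lift_apply_of⟩ (inv_mem ⟨.of i0, FreeGroup.lift_apply_of⟩))
  have Gd : ∀ g ∈ G, Ls (ds u (g * u)) l := fun g hg => by
    induction hg using Subgroup.closure_induction with
    | mem g hg =>
      obtain ⟨i, hi, rfl⟩ := hg
      exact Ls.mono_left (gen i hi) ((Ls.refl' l).nat_mul n).two
    | one => simpa using Ls.zero l0.le
    | mul g h _ _ k k' => exact Ls.mono_left (disp_mul g h u) (k.add k')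
    | inv g _ k => rwa [disp_inv]
  obtain ⟨d1, m1, i1⟩ : ∃ d ∈ G, ¬ IsOfFinOrder d := by
    by_contra e
    have := (hTORS Γ a G fun k hk => by_contra fun e' => e ⟨k, hk, e'⟩).1
    exact hy (mem_dg_of_finite U0 _ ((Set.toFinite (G : Set (MM Γ a))).image (· * y i0)) y
      (hn.mono fun i hi => ⟨_, mG i hi, inv_mul_cancel_right _ _⟩))
  obtain ⟨i, hi, ni⟩ : ∃ i, ds u (y i * u') ≤ n * l ∧ ¬ InE d1 (y i * (y i0)⁻¹) := by
    by_contra e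
    have k := (inE_mk' U0 (fun _ => d1) fun i => y i * (y i0)⁻¹).2
      (hn.mono fun i hi => by_contra fun e' => e ⟨i, hi, e'⟩)
    rw [mk'_mul, mk'_hom, mk'_hom] at k
    have j1 := mt (a.dg U0).finOrder_iff.1 i1
    obtain ⟨r1, -, -, -, r5, -⟩ := hROOT Γ _ _ hM
    obtain ⟨c, mc, pc, ec⟩ := r1 _ ⟨d1, rfl⟩ j1
    obtain ⟨g', mg, eg⟩ := r5 _ ⟨d1, rfl⟩ j1 _ k
    exact hE ⟨1, one_mem _, _, mul_mem mg ⟨y i0, rfl⟩, c, mc, pc, _, ec ▸ eg, by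
      rw [map_inv]; group⟩
  set g := y i * (y i0)⁻¹
  have m2 : g * d1 * g⁻¹ ∈ G := mul_mem (mul_mem (mG i hi) m1) (inv_mem (mG i hi))
  have ne : Ep d1 ≠ Ep (g * d1 * g⁻¹) := fun e =>
    ni (((hELEM Γ a d1 i1).2.2.2.1 g).2 e.symm)
  obtain ⟨w1, e1⟩ := GS m1
  obtain ⟨w2, e2⟩ := GS m2
  refine ⟨_, ⟨(w1, w2, i0), rfl⟩, Ls.trans' ?_ hl.2⟩
  simp only [e1, e2]
  set s := t d1 (g * d1 * g⁻¹)
  have b := (Gd _ m1).add (Gd _ m2)
  have c := ((hG_COH Γ a ⊤ (gc_top hCVX).toGC0).2.2 _ _ s u i1 (mt (finOrder_conj g d1).1 i1)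
    ne).trans' ((Ls.mono_left ((ht _ _).1 u) b).add b)
  obtain ⟨m, hm⟩ := c.two.add ((Ls.refl' l).nat_mul n).two
  rw [← mk'_hom, ← mk'_hom, ← mk'_mul, ds_mk', ls_mk'_kh]
  refine ⟨m, hn.mono fun j hj => ?_⟩
  rw [← mul_assoc]
  linarith [disp_le (y j * (y i0)⁻¹) s u, gen j hj]

end Pool.Agent.P.MP_dba3d2_lc
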