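import Pool.Agent.P.MP_dba3d2_lc.G.Iface2
import Pool.Agent.P.MP_dba3d2_lc.G.Tb

/-! Step G_FAC of the stability project. -/

namespace Pool.Agent.P.MP_dba3d2_lc

open Filter

namespace G_fac
open GT

variable {Γ : HG} {a : Amb}

theorem down (t : a.K) (X : ℕ → MM Γ (a.pow U0)) (P : ℕ → MM Γ a) (p : MM Γ (a.pow U0)) (n : ℕ) :
    ds ((a.pow U0).mk' U0 X * (cp a true).hom Γ (a.mk' U0 P)) ((cp a false).hom Γ p) ≤
      n * (cp a false).kh ((a.dg U0).kh t) ↔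
    ∀ᶠ j in (U0 : Filter ℕ), ds (X j * (a.dg U0).hom Γ (P j)) p ≤ n * (a.dg U0).kh t := by
  rw [cp_true, cp_false, cp_false_kh, ← mk'_mul, ds_mk', ← nmul_mk', mk'_le_iff]

theorem down2 (t : a.K) (x P : ℕ → MM Γ a) (p : MM Γ a) :
    ds (a.mk' U0 x * (a.dg U0).hom Γ p) (a.mk' U0 P) ≤ (a.dg U0).kh t ↔
    ∀ᶠ i in (U0 : Filter ℕ), ds (x i * p) (P i) ≤ t := by
  rw [← mk'_hom, ← mk'_mul, ds_mk', mk'_le_kh]

theorem step {t : a.K} {y p : MM Γ (a.pow U0)} {u u0 v v0 r : MM Γ a}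
    (h0 : ds (y * (a.dg U0).hom Γ v0) p ≤ (a.dg U0).kh t) (h1 : ds (u * v) r ≤ t)
    (h2 : ds (u0 * v0) r ≤ t) :
    ds (y * (a.dg U0).hom Γ (u0⁻¹ * u) * (a.dg U0).hom Γ v) p ≤ (3 : ℕ) * (a.dg U0).kh t := by
  have e1 := ds_tri (y * (a.dg U0).hom Γ (u0⁻¹ * u * v)) (y * (a.dg U0).hom Γ v0) p
  rw [ds_mul_left, Ext.ds_hom] at e1
  have e2 : ds (u0⁻¹ * u * v) v0 ≤ t + t := by
    have k := ds_tri (u * v) r (u0 * v0)
    rw [ds_comm r] at k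
    rw [← ds_mul_left u0, ← mul_assoc, mul_inv_cancel_left]
    linarith
  have e3 := (a.dg U0).kh_le.2 e2
  rw [map_add] at e3
  rw [mul_assoc, ← map_mul]
  push_cast
  linarith

end G_fac

theorem p_G_FAC :
    S_G_FAC := by
  intro Γ a t x p0 q0 p1 q1 hp hq
  obtain ⟨X, rfl⟩ := mk'_surjective U0 x
  obtain ⟨P1, rfl⟩ := mk'_surjective U0 p1
  obtain ⟨Q1, rfl⟩ := mk'_surjective U0 q1
  obtain ⟨P0, rfl⟩ := mk'_surjective U0 p0
  obtain ⟨Q0, rfl⟩ := mk'_surjective U0 q0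
  choose x hx using fun j => mk'_surjective U0 (X j)
  have h1 := (G_fac.down t X P1 _ 1).1 (by simpa using hp)
  have h2 := (G_fac.down t X Q1 _ 1).1 (by simpa using hq)
  simp only [Nat.cast_one, one_mul] at h1 h2
  obtain ⟨j0, k1, k2⟩ := (h1.and h2).exists
  have k3 := k1
  have k4 := k2
  rw [← hx j0, G_fac.down2] at k3 k4
  obtain ⟨f, hf⟩ := ((h1.and h2).mono fun j hj => show ∃ i,
      (ds (x j i * P1 j) (P0 i) ≤ t ∧ ds (x j i * Q1 j) (Q0 i) ≤ t) ∧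
      ds (x j0 i * P1 j0) (P0 i) ≤ t ∧ ds (x j0 i * Q1 j0) (Q0 i) ≤ t from by
    obtain ⟨l1, l2⟩ := hj
    rw [← hx j, G_fac.down2] at l1 l2
    exact ((l1.and l2).and (k3.and k4)).exists).choice
  have e : (cp a false).hom Γ (X j0) *
      (cp a true).hom Γ (a.mk' U0 fun j => (x j0 (f j))⁻¹ * x j (f j)) =
      (a.pow U0).mk' U0 fun j => X j0 * (a.dg U0).hom Γ ((x j0 (f j))⁻¹ * x j (f j)) := by
    rw [GT.cp_true, GT.cp_false, ← mk'_mul]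
  refine ⟨X j0, a.mk' U0 fun j => (x j0 (f j))⁻¹ * x j (f j), ?_, ?_⟩
  · rw [e]
    exact_mod_cast (G_fac.down t _ P1 _ 3).2 (hf.mono fun j hj => G_fac.step k1 hj.1.1 hj.2.1)
  · rw [e]
    exact_mod_cast (G_fac.down t _ Q1 _ 3).2 (hf.mono fun j hj => G_fac.step k2 hj.1.2 hj.2.2)

end Pool.Agent.P.MP_dba3d2_lc
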