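import Pool.Agent.P.MP_dba3d2_lc.G.Iface2
import Pool.Agent.P.MP_dba3d2_lc.B.Iface
import Pool.Agent.P.MP_dba3d2_lc.B.Iface2
import Pool.Agent.P.MP_dba3d2_lc.G.Tb
import Pool.Agent.P.MP_dba3d2_lc.B.Fix

/-! Step G_I1 of the stability project. -/

namespace Pool.Agent.P.MP_dba3d2_lc

open Filter GT

namespace G_i1

variable {Γ : HG} {b : Amb} {ν τ : b.K} {n : ℕ} {x k p P0 P1 : MM Γ b}

theorem err (hn : 0 < n) (e : ν = (8 * n : ℕ) * τ) (h0 : Ll (ds p P0) ν)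
    (h1 : Ll (ds (x⁻¹ * p) P1) ν) : ds p P0 + ds p (x * P1) ≤ τ := by
  have h := (h0.add h1) (8 * n)
  rw [e, ← ds_mul_left x (x⁻¹ * p), mul_inv_cancel_left] at h
  exact le_of_mul_le_mul_left h (by positivity)

theorem near (hn : 0 < n) (e : ν = (8 * n : ℕ) * τ) (h0 : Ll (ds p P0) ν)
    (h1 : Ll (ds (x⁻¹ * p) P1) ν) : ds (x * P1) P0 ≤ τ := by
  linarith [err hn e h0 h1, ds_tri (x * P1) p P0, ds_comm p (x * P1)]

theorem move (hn : 0 < n) (e : ν = (8 * n : ℕ) * τ) (h0 : Ll (ds p P0) ν)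
    (h1 : Ll (ds (x⁻¹ * p) P1) ν) (h : ds (k * P1) P0 ≤ 3 * τ) :
    n * ds p (x * k⁻¹ * p) ≤ ν := by
  have h2 := err hn e h0 h1
  have h3 : ds (x * P1) (x * k⁻¹ * p) = ds (k * P1) p := by
    rw [← ds_mul_left (x * k⁻¹) (k * P1) p, mul_assoc x k⁻¹ (k * P1), inv_mul_cancel_left]
  have h4 : ds p (x * k⁻¹ * p) ≤ 8 * τ := by
    linarith [ds_tri p (x * P1) (x * k⁻¹ * p), ds_tri (k * P1) P0 p, ds_comm p P0,
      ds_nonneg p P0, ds_nonneg p (x * P1)]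
  refine (mul_le_mul_of_nonneg_left h4 n.cast_nonneg).trans_eq ?_
  rw [e]
  push_cast
  ring

theorem apx (hB : S_B_APX) {a : Amb} (E : Ext a b) {l : a.K} {u : MM Γ a} (hl : Big (E.kh l))
    (hu : Ls (ln (E.hom Γ u)) (E.kh l)) (h : On (E.kh l) p 1 (E.hom Γ u)) :
    ∃ p0, Ll (ds p (E.hom Γ p0)) (E.kh l) := by
  rw [E.ln_hom, E.ls_iff] at hu
  obtain ⟨p0, -, k⟩ := hB Γ a b E l 1 u p (E.big_iff.1 hl) (by rwa [ds_one_left])
    (by rwa [map_one])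
  exact ⟨p0, k⟩

end G_i1

open G_i1

theorem p_G_I1 (hCVX : S_CVX) (hEXTGC : S_EXTGC) (hB_SMALL : S_B_SMALL) (hB_APX : S_B_APX) (hG_FAC : S_G_FAC) :
    S_G_I1 := by
  rintro Γ a μ hμ _ ⟨u, rfl⟩ _ ⟨v, rfl⟩ hu hv x p q ho hn
  have su : Sim μ (ln ((cp a false).hom Γ u)) :=
    ⟨by simpa only [ds_one_left] using ho.2.1.nondeg hμ ho.2.2.1 ho.1, hu⟩
  have sv : Sim μ (ln ((cp a true).hom Γ v)) :=
    ⟨by simpa only [ds_mul_right] using ho.2.2.2.1.nondeg hμ ho.2.2.2.2 ho.1, hv⟩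
  obtain ⟨l, hl, -⟩ := cp_scale (x := ln u) (y := ln v) (by
    rw [← Ext.ln_hom, ← Ext.ln_hom]
    exact su.symm'.trans' sv)
  have s : Sim μ ((cp a false).kh ((a.dg U0).kh l)) :=
    su.trans' (by rw [Ext.ln_hom]; exact (cp a false).sim_iff.2 hl)
  have hν := s.big_iff.1 hμ
  rw [s.ov_iff hμ.pos.le hν.pos.le] at ho
  rw [s.per_iff hμ.pos.le hν.pos.le] at hn
  have hu' := hu.trans' s.1
  have hv' := hv.trans' s.1
  obtain ⟨p0, a0⟩ := apx hB_APX (cp a false) hν hu' ho.2.1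
  obtain ⟨q0, b0⟩ := apx hB_APX (cp a false) hν hu' ho.2.2.1
  have o : ∀ z, On ((cp a false).kh ((a.dg U0).kh l)) z x (x * (cp a true).hom Γ v) →
      ∃ z1, Ll (ds (x⁻¹ * z) ((cp a true).hom Γ z1)) ((cp a false).kh ((a.dg U0).kh l)) := by
    intro z hz
    have k := hz.mul x⁻¹
    rw [inv_mul_cancel, inv_mul_cancel_left] at k
    rw [← cp_dg_kh true] at k hν hv' ⊢
    exact apx hB_APX (cp a true) hν hv' k
  obtain ⟨p1, a1⟩ := o p ho.2.2.2.1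
  obtain ⟨q1, b1⟩ := o q ho.2.2.2.2
  obtain ⟨r, s, n, hr, hs, hrs, np, n0, -, st⟩ := hB_SMALL Γ _ _ p q hν ho.1 hn
  have e : (cp a false).kh ((a.dg U0).kh l) =
      (8 * n : ℕ) * (cp a false).kh ((a.dg U0).kh (l / (8 * n : ℕ))) := by
    rw [← map_natCast (cp a false).kh, ← map_mul, ← map_natCast (a.dg U0).kh, ← map_mul,
      mul_div_cancel₀ _ (Nat.cast_ne_zero.2 (by omega))]
  obtain ⟨y, w, c1, c2⟩ := hG_FAC Γ a _ x p0 q0 p1 q1 (near n0 e a0 a1) (near n0 e b0 b1)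
  have g := st _ (move n0 e a0 a1 c1) (move n0 e b0 b1 c2)
  have m := (gc_range (cp a false) hCVX hEXTGC).toGC0.g2' hν (one_mem _) ⟨u, rfl⟩ (one_mem _)
    ⟨u, rfl⟩ (by rwa [ds_one_left]) (by rwa [ds_one_left])
    (g.ov (ho.2.1.conv hν ho.2.2.1 hr) (ho.2.1.conv hν ho.2.2.1 hs) hrs) np
  exact ⟨_, mul_mem m ⟨y, rfl⟩, _, ⟨w, rfl⟩, by group⟩

end Pool.Agent.P.MP_dba3d2_lc
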