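import Pool.Agent.P.MP_dba3d2_lc.G.Iface2
import Pool.Agent.P.MP_dba3d2_lc.G.Tb

/-! Step G_I2 of the stability project. -/

namespace Pool.Agent.P.MP_dba3d2_lc

open Filter

theorem p_G_I2 :
    S_G_I2 := by
  intro Γ a c0 c1 x hc h
  obtain ⟨X, rfl⟩ := mk'_surjective U0 x
  obtain ⟨d, rfl⟩ := mk'_surjective U0 c1
  obtain ⟨c, rfl⟩ := mk'_surjective U0 c0
  choose x hx using fun j => mk'_surjective U0 (X j)
  rw [GT.cp_true, GT.cp_false, GT.cj_mk'] at h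
  rw [prim_mk'] at hc
  obtain ⟨j0, k1, k2⟩ := (h.and hc).exists
  have k3 := k1
  rw [← hx j0, ← mk'_hom, GT.cj_mk'] at k3
  obtain ⟨f, hf⟩ := (h.mono fun j hj => show ∃ i,
      Cj (x j i) (d j) (c i) ∧ Cj (x j0 i) (d j0) (c i) from by
    rw [← hx j, ← mk'_hom, GT.cj_mk'] at hj
    exact (hj.and k3).exists).choice
  refine ⟨(a.dg U0).hom Γ (d j0), ⟨_, rfl⟩, (a.dg U0).prim_iff.2 k2, X j0,
    a.mk' U0 fun j => (x j (f j))⁻¹ * x j0 (f j), k1, ?_⟩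
  rw [← mk'_hom, GT.cj_mk']
  exact hf.mono fun j hj => hj.1.inv.mul hj.2

end Pool.Agent.P.MP_dba3d2_lc
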