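import Pool.Agent.P.MP_dba3d2_lc.G.Iface2
import Pool.Agent.P.MP_dba3d2_lc.A.Iface
import Pool.Agent.P.MP_dba3d2_lc.B.Iface
import Pool.Agent.P.MP_dba3d2_lc.G.Tb
import Pool.Agent.P.MP_dba3d2_lc.B.Axis

/-! Step G_I5 of the stability project. -/

namespace Pool.Agent.P.MP_dba3d2_lc

open Filter GT

theorem p_G_I5 (hTORS : S_TORS) (hELEM : S_ELEM) (hCVX : S_CVX) (hEXTGC : S_EXTGC) (hROOT : S_ROOT) (hRIG : S_RIG) :
    S_G_I5 := by
  intro Γ a i x c c' hx pc pc' h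
  have hM := (gc_range (Γ := Γ) (a.dg U0) hCVX hEXTGC).toGC0
  have r4 := (hROOT Γ _ _ hM).2.2.2.1
  cases i
  · obtain ⟨x, rfl⟩ := mk'_surjective U0 x
    rw [Bool.not_false, cp_true, cp_false, cp_false, cj_mk'] at h
    obtain ⟨j0, h0⟩ := h.exists
    let K : Subgroup (MM Γ a) :=
      { carrier := {g | InE c ((a.dg U0).hom Γ g)}
        one_mem' := InE.of_mem (by rw [map_one]; exact one_mem _)
        mul_mem' := fun {g g'} u v => by
          have := InE.mul u v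
          rwa [← map_mul] at this
        inv_mem' := fun {g} u => by
          have := InE.inv u
          rwa [← map_inv] at this }
    by_cases e : ∀ g ∈ K, IsOfFinOrder g
    · have := (hTORS Γ a K e).1
      refine absurd (mem_dg_of_finite U0 _ ((Set.toFinite (K : Set (MM Γ a))).image (· * x j0)) x
        (h.mono fun j hj => ⟨x j * (x j0)⁻¹, ?_, inv_mul_cancel_right _ _⟩)) hx
      have := ((hELEM Γ _ c pc.1).2.2.2.1 _).2 (hj.mul h0.inv)
      rwa [← map_inv, ← map_mul] at this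
    · push Not at e
      obtain ⟨g, hg, ig⟩ := e
      have ig' := mt (a.dg U0).finOrder_iff.1 ig
      exact r4 _ ⟨g, rfl⟩ ig' c pc (Ep_eq hELEM pc.1 (InE.mem hELEM pc.1 hg ig') ig').symm
  · obtain ⟨c, rfl⟩ := mk'_surjective U0 c
    obtain ⟨c', rfl⟩ := mk'_surjective U0 c'
    rw [Bool.not_true, cp_true, cp_true, cp_false, cj_mk'] at h
    have k := h.and (((prim_mk' U0 c).1 pc).and ((prim_mk' U0 c').1 pc'))
    obtain ⟨j0, h0, p0, p0'⟩ := k.exists
    have f := fun z (p : Prim z) => mt ((a.dg U0).finOrder_iff (Γ := Γ) (g := z)).1 p.1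
    refine r4 _ ⟨c j0, rfl⟩ (f _ p0) _ pc ?_
    rw [← mk'_hom, Ep_mk']
    refine k.mono fun j ⟨hj, p, p'⟩ => by_contra fun e => hx ?_
    exact (hRIG Γ _ _ hM).1 _ ⟨c j, rfl⟩ _ ⟨c j0, rfl⟩ _ ⟨c' j, rfl⟩ _ ⟨c' j0, rfl⟩ (f _ p) (f _ p0)
      (f _ p') (f _ p0') (mt (Ep_hom _).1 e) x hj h0

end Pool.Agent.P.MP_dba3d2_lc
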