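import Pool.Agent.P.MP_dba3d2_lc.G.Iface2
import Pool.Agent.P.MP_dba3d2_lc.B.Iface
import Pool.Agent.P.MP_dba3d2_lc.G.Tb

/-! Step G_LE3 of the stability project. -/

namespace Pool.Agent.P.MP_dba3d2_lc

open Filter GT

theorem p_G_LE3 (hCVX : S_CVX) (hEXTGC : S_EXTGC) (hROOT : S_ROOT) (hG_LEAST : S_G_LEAST) (hG_COH : S_G_COH) :
    S_G_LE3 := by
  intro Γ a c hc hn hO
  have hM : GC0 (dM Γ a) := (gc_range (a.dg U0) hCVX hEXTGC).toGC0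
  obtain ⟨f, rfl⟩ := mk'_surjective U0 c
  choose t ht using fun p : ℕ × ℕ => (exists_min_disp (f p.1) (f p.2)).imp fun _ h => h.1
  have hpos : ∀ s : MM Γ (a.pow U0), 0 < ds s (a.mk' U0 f * s) := fun s =>
    one_pos.trans_le ((one_le_md' hc.1).trans (md_le_ds _ s))
  have hlip : ∀ (x y : MM Γ a), Ls ((a.dg U0).kh (ds x y))
      (ds ((a.dg U0).hom Γ y) (a.mk' U0 f * (a.dg U0).hom Γ y)) →
      Ls (ds ((a.dg U0).hom Γ x) (a.mk' U0 f * (a.dg U0).hom Γ x))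
        (ds ((a.dg U0).hom Γ y) (a.mk' U0 f * (a.dg U0).hom Γ y)) := fun x y h =>
    Ls.mono_left (disp_le _ _ ((a.dg U0).hom Γ y))
      (Ls.add (Ls.two (by rwa [Ext.ds_hom])) (Ls.refl' _))
  obtain ⟨x, hx⟩ := hG_LEAST Γ a (a.pow U0) (a.dg U0) Unit
    (fun x => ds ((a.dg U0).hom Γ (x ())) (a.mk' U0 f * (a.dg U0).hom Γ (x ())))
    (Set.range fun p : ℕ × ℕ => fun _ => t p) (Set.countable_range _) (fun x => hpos _)
    (fun x => hO _ ⟨_, rfl⟩) (fun x y h => hlip _ _ (h ()))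
    (fun x y i => by
      rw [← Ext.ds_hom]
      exact (hG_COH Γ _ _ hM).2.1 _ hc hn _ ⟨_, rfl⟩ _ ⟨_, rfl⟩)
    (fun x => by
      obtain ⟨l, h1, h2⟩ := hO _ ⟨x (), rfl⟩
      have h3 := h1
      rw [← mk'_hom, ← mk'_mul, ds_mk', ls_mk'_kh] at h3
      obtain ⟨n, h3⟩ := h3
      have h4 := ((prim_mk' U0 f).1 hc).and h3
      obtain ⟨i, i1, i2⟩ := h4.exists
      have h5 : ¬ ∀ᶠ j in (U0 : Filter ℕ), Ep (f j) = Ep (f i) := fun h => by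
        have e := (Ep_mk' U0 f fun _ => f i).2 h
        rw [mk'_hom] at e
        exact hn ((hROOT Γ _ _ hM).2.2.2.1 _ ⟨f i, rfl⟩ (mt (a.dg U0).finOrder_iff.1 i1.1) _ hc e)
      obtain ⟨j, ⟨j1, j2⟩, j3⟩ := (h4.and (Ultrafilter.eventually_not.2 h5)).exists
      refine ⟨_, ⟨(i, j), rfl⟩, hlip _ _ (Ls.trans' ((a.dg U0).ls_iff.2 ?_) h2)⟩
      refine ((hG_COH Γ a ⊤ (gc_top hCVX).toGC0).2.2 (f i) (f j) _ _ i1.1 j1.1 (Ne.symm j3)).trans'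
        ⟨4 * n, ?_⟩
      have h6 := ht (i, j) (x ())
      push_cast
      linarith)
  refine ⟨_, ⟨x (), rfl⟩, ?_⟩
  rintro _ ⟨s, rfl⟩
  exact hx fun _ => s

end Pool.Agent.P.MP_dba3d2_lc
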