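import Pool.Agent.P.MP_dba3d2_lc.G.Iface2
import Pool.Agent.P.MP_dba3d2_lc.G.Tb

/-! Step G_LEAST of the stability project. -/

namespace Pool.Agent.P.MP_dba3d2_lc

open Filter GT

theorem p_G_LEAST :
    S_G_LEAST := by
  intro Γ a b E ι D C hC hpos hold hlip hds hcof
  by_contra hne
  have hn : ∀ x, ∃ y, Ll (D y) (D x) := fun x => by
    by_contra e
    exact hne ⟨x, fun y => by
      by_contra e'
      exact e ⟨y, (not_ls_iff (hpos y).le (hpos x)).1 e'⟩⟩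
  obtain ⟨y0, hy0, -⟩ := hcof 1
  obtain ⟨c, rfl⟩ := hC.exists_eq_range ⟨y0, hy0⟩
  have hn' : ∀ (x : ι → MM Γ a) (k : ℕ), ∃ y, Ll (D y) (D x) ∧ D y ≤ D (c k) := fun x k => by
    obtain ⟨y, hy⟩ := hn x
    rcases le_total (D y) (D (c k)) with e | e
    · exact ⟨y, hy, e⟩
    · exact ⟨c k, Ll.mono_left e hy, le_rfl⟩
  choose nx hnx1 hnx2 using hn'
  obtain ⟨x, h1, h2⟩ : ∃ x : ℕ → ι → MM Γ a, (∀ k, Ll (D (x (k + 1))) (D (x k))) ∧
      ∀ k, D (x k) ≤ D (c k) := by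
    refine ⟨fun k => Nat.rec (c 0) (fun k y => nx y (k + 1)) k, fun k => hnx1 _ _, fun k => ?_⟩
    cases k with
    | zero => exact le_rfl
    | succ k => exact hnx2 _ _
  have h3 : ∀ k K, k ≤ K → D (x K) ≤ D (x k) := fun k K h =>
    antitone_nat_of_succ_le (f := fun k => D (x k)) (fun k => by simpa using h1 k 1) h
  have h4 : ∀ i k, ∃ r : a.K, Ls (E.kh r) (D (x k)) ∧ ∀ K, k ≤ K → ds (x K i) (x k i) ≤ r := by
    intro i k
    obtain ⟨l, ⟨m, hm⟩, hb⟩ := hold (x k)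
    obtain ⟨n, hn⟩ := hds (x (k + 1)) (x k) i
    have e : E.kh ((((2 * n + 1) * m : ℕ) : a.K) * l) = (((2 * n + 1) * m : ℕ) : b.K) * E.kh l := by
      rw [map_mul, map_natCast]
    have p0 := hpos (x k)
    have n0 : (0 : b.K) ≤ n := n.cast_nonneg
    have g1 : (2 * n + 1) * D (x k) ≤ (((2 * n + 1) * m : ℕ) : b.K) * E.kh l := by
      push_cast
      rw [mul_assoc]
      exact mul_le_mul_of_nonneg_left hm (by linarith)
    have g2 : (n : b.K) * (D (x (k + 1)) + D (x k)) ≤ n * (2 * D (x k)) :=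
      mul_le_mul_of_nonneg_left (by linarith [h3 k (k + 1) k.le_succ]) n0
    refine ⟨_, e ▸ hb.nat_mul _, fun K hK => E.kh_le.1 ?_⟩
    rw [e]
    rcases hK.eq_or_lt with rfl | hK
    · rw [ds, inv_mul_cancel, ln_one, map_zero]
      exact le_trans (mul_nonneg (by linarith) p0.le) g1
    · have g3 : Ll (E.kh (ds (x K i) (x (k + 1) i))) (D (x k)) :=
        Ll.ls_left (hds _ _ i) (Ll.add (Ll.mono_left (h3 _ _ hK) (h1 k)) (h1 k))
      have g4 := g3 1
      have g5 := E.kh_le.2 (ds_tri (x K i) (x (k + 1) i) (x k i))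
      rw [map_add] at g5
      rw [Nat.cast_one, one_mul] at g4
      linarith
  choose r hr1 hr2 using h4
  have h5 : ∀ i, ∃ v, ∀ k, ds v (x k i) ≤ r i k := fun i =>
    sat_ball (fun k => x k i) (r i) fun K => ⟨x K i, fun k hk => hr2 i k K hk⟩
  choose v hv using h5
  refine hne ⟨v, fun y => ?_⟩
  obtain ⟨_, ⟨k, rfl⟩, hk⟩ := hcof y
  exact ((hlip v (x k) fun i => Ls.mono_left (E.kh_le.2 (hv i k)) (hr1 i k)).mono_right
    (h2 k)).trans' hk

end Pool.Agent.P.MP_dba3d2_lc
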