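import Pool.Agent.P.MP_dba3d2_lc.G.Iface2
import Pool.Agent.P.MP_dba3d2_lc.G.Tb

/-! Step G_PROG of the stability project. -/

namespace Pool.Agent.P.MP_dba3d2_lc

open Filter GT

namespace GprogA

/-- points at the same height on two overlapping geodesics are close -/
theorem close {Γ : HG} {a : Amb} {Z V P P' : MM Γ a} {T : a.K} (h1 : ln P + ds P Z = ln Z)
    (h2 : ln P ≤ T) (h3 : T ≤ ln P + 1) (h4 : ln P' + ds P' V = ln V) (h5 : ln P' ≤ T)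
    (h6 : T ≤ ln P' + 1) (h7 : 2 * T ≤ ln Z + ln V - ds Z V) : ¬ Big (ds P P') := by
  have k1 := ds_four P V Z 1
  have k2 := ds_four P P' V 1
  simp only [ds_one_right] at k1 k2
  have k3 : ds P V ≤ ln V - ln P + 2 * (Γ.δ : a.K) := by
    rw [ds_comm V Z] at k1
    rcases max_choice (ds P Z + ln V) (ln P + ds Z V) with e | e <;> rw [e] at k1 <;> linarith
  have k0 : (0 : a.K) ≤ (Γ.δ : a.K) := Nat.cast_nonneg _
  refine not_big_iff.2 ⟨2 + 4 * Γ.δ, ?_⟩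
  push_cast
  rcases max_choice (ds P V + ln P') (ln P + ds P' V) with e | e <;> rw [e] at k2 <;> linarith

end GprogA

theorem p_G_PROG :
    S_G_PROG := by
  rintro Γ a i y hB _ ⟨v, rfl⟩ - hbig hsim hov
  rw [Ovl, ← map_inv] at hov
  rw [Ext.ln_hom, Ext.big_iff] at hbig
  rw [Ext.ln_hom, Ext.ln_hom] at hsim
  obtain ⟨l, hy, -⟩ := cp_scale' i hsim.symm'
  have hl : Big ((a.dg U0).kh l) := hbig.of_ls hy.1
  have hν : Ls ((cp a i).kh ((a.dg U0).kh l)) (ln ((cp a i).hom Γ y)) := by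
    rw [Ext.ln_hom, Ext.ls_iff]; exact hy.2
  obtain ⟨n, hn⟩ := hν.trans' hov
  have hν0 : 0 < (cp a i).kh ((a.dg U0).kh l) := (kh_pos _).2 hl.pos
  have hn0 : n ≠ 0 := by
    rintro rfl
    rw [Nat.cast_zero, zero_mul] at hn
    exact absurd hn (not_le.2 hν0)
  obtain ⟨t, ht⟩ : ∃ t : a.K, l = (2 * n : ℕ) * t :=
    ⟨l / (2 * n : ℕ), (mul_div_cancel₀ _ (Nat.cast_ne_zero.2 (by omega))).symm⟩
  have ht1 : (a.dg U0).kh l = (2 * n : ℕ) * (a.dg U0).kh t := by rw [ht, map_mul, map_natCast]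
  have hn1 : (0 : (a.pow U0).K) < (2 * n : ℕ) := Nat.cast_pos.2 (by omega)
  have ht0 : 0 ≤ (a.dg U0).kh t := by
    have := hl.pos
    rw [ht1] at this
    exact (pos_of_mul_pos_right this hn1.le).le
  have hG : 2 * (cp a i).kh ((a.dg U0).kh t) ≤ ln ((cp a i).hom Γ y⁻¹) +
      ln ((cp a (!i)).hom Γ v) - ds ((cp a i).hom Γ y⁻¹) ((cp a (!i)).hom Γ v) := by
    rw [ht1, map_mul, map_natCast] at hn
    refine le_of_mul_le_mul_left (le_of_eq_of_le ?_ hn) (Nat.cast_pos.2 (Nat.pos_of_ne_zero hn0))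
    push_cast
    ring
  have hE : (cp a (!i)).kh ((a.dg U0).kh t) = (cp a i).kh ((a.dg U0).kh t) :=
    (cp_dg_kh _ t).trans (cp_dg_kh _ t).symm
  have b1 : (a.dg U0).kh t ≤ ds 1 y⁻¹ := by
    rw [ds_one_left, ← (cp a i).kh_le, ← Ext.ln_hom]
    have := ds_tri 1 ((cp a i).hom Γ y⁻¹) ((cp a (!i)).hom Γ v)
    simp only [ds_one_left] at this
    linarith
  have b2 : (a.dg U0).kh t ≤ ds 1 v := by
    rw [ds_one_left, ← (cp a (!i)).kh_le, ← Ext.ln_hom, hE]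
    have := ds_tri 1 ((cp a (!i)).hom Γ v) ((cp a i).hom Γ y⁻¹)
    rw [ds_comm ((cp a (!i)).hom Γ v)] at this
    simp only [ds_one_left] at this
    linarith
  obtain ⟨p, p1, p2, p3⟩ := exists_point 1 y⁻¹ _ ht0 b1
  obtain ⟨q, q1, q2, q3⟩ := exists_point 1 v _ ht0 b2
  simp only [ds_one_left] at p1 p2 p3 q1 q2 q3
  have hc : ¬ Big (ds ((cp a i).hom Γ p) ((cp a (!i)).hom Γ q)) := by
    refine GprogA.close (T := (cp a i).kh ((a.dg U0).kh t)) ?_ ?_ ?_ ?_ ?_ ?_ hG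
    · rw [Ext.ln_hom, Ext.ds_hom, Ext.ln_hom, ← map_add, p1]
    · rw [Ext.ln_hom, Ext.kh_le]; exact p2
    · rw [Ext.ln_hom, ← map_one (cp a i).kh, ← map_add, Ext.kh_le]; exact p3
    · rw [Ext.ln_hom, Ext.ds_hom, Ext.ln_hom, ← map_add, q1]
    · rw [Ext.ln_hom, ← hE, Ext.kh_le]; exact q2
    · rw [Ext.ln_hom, ← hE, ← map_one (cp a (!i)).kh, ← map_add, Ext.kh_le]; exact q3
  obtain ⟨g, hg⟩ := mem_std_iff.2 hc
  have h1 : (cp a i).hom Γ (p * cst Γ _ g) = (cp a (!i)).hom Γ q := by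
    rw [map_mul, Ext.hom_cst, hg, mul_inv_cancel_left]
  have h2 : p ∈ dM Γ a :=
    (mul_mem_cancel_right (std_le_range (a.dg U0) ⟨g, rfl⟩)).1 (cp_int' i h1)
  have hz : Big (ln y⁻¹) := by rwa [ln_inv]
  have h3 := hB hz p h2
  rw [show ln y⁻¹ - ds p y⁻¹ = ln p by linarith] at h3
  refine h3.not_ls hz.pos (Ls.of_le_add (by rw [ln_inv]; exact hy.1) (hz.ll_nat (2 * n)) hz.pos
    (2 * n) ?_)
  rw [ht1]
  nlinarith

end Pool.Agent.P.MP_dba3d2_lc
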