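import Pool.Agent.P.MP_dba3d2_lc.G.Iface2
import Pool.Agent.P.MP_dba3d2_lc.B.Iface2
import Pool.Agent.P.MP_dba3d2_lc.G.Tb
import Pool.Agent.P.MP_dba3d2_lc.B.Tre

/-! Step G_PROJ of the stability project. -/

namespace Pool.Agent.P.MP_dba3d2_lc

open Filter

namespace G_proj

variable {Γ : HG} {a b : Amb} {μ : a.K} {p x y z : MM Γ a}

theorem lds (hx : Ls (ln x) μ) (hy : Ls (ln y) μ) : Ls (ds x y) μ :=
  Ls.mono_left (ds_le_ln x y) (hx.add hy)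

theorem fds (hx : Ls (ln x) μ) (hy : Ls (ln y) μ) : Ls |ds x y| μ :=
  ls_abs (ds_nonneg _ _) (lds hx hy)

theorem r_tri (hμ : 0 < μ) (hx : Ls (ln x) μ) (hy : Ls (ln y) μ) (hz : Ls (ln z) μ) :
    rl μ (ds x z) ≤ rl μ (ds x y) + rl μ (ds y z) := by
  rw [← rl_add hμ (fds hx hy) (fds hy hz)]
  exact rl_mono hμ (fds hx hz) (ls_abs_add (fds hx hy) (fds hy hz)) (ds_tri x y z)

theorem r_on (hμ : 0 < μ) (hp : Ls (ln p) μ) (hx : Ls (ln x) μ) (hy : Ls (ln y) μ)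
    (h : On μ p x y) : rl μ (ds x p) + rl μ (ds p y) ≤ rl μ (ds x y) := by
  have k := (rl_nonpos_iff hμ (ls_abs_sub (ls_abs_add (fds hx hp) (fds hp hy)) (fds hx hy))).2 h
  rw [rl_sub hμ (ls_abs_add (fds hx hp) (fds hp hy)) (fds hx hy),
    rl_add hμ (fds hx hp) (fds hp hy)] at k
  linarith

theorem fin_of_ds (hx : Ls (ln x) μ) (h : Ls (ds x p) μ) : Ls (ln p) μ := by
  have k := ds_tri 1 x p
  rw [ds_one_left, ds_one_left] at k
  exact Ls.mono_left k (hx.add h)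

theorem fin_of_on (hx : Ls (ln x) μ) (hy : Ls (ln y) μ) (h : On μ p x y) : Ls (ln p) μ :=
  fin_of_ds hx (h.ls_left (lds hx hy))

theorem ls_real (hμ : 0 < μ) (r : ℝ) : Ls ((r : a.K) * μ) μ := by
  obtain ⟨n, hn⟩ := exists_nat_ge r
  refine ⟨n, mul_le_mul_of_nonneg_right ?_ hμ.le⟩
  have k := (cR a).monotone' hn
  change cR a r ≤ cR a n at k
  rwa [map_natCast, cR_apply] at k

theorem r_le_real (hμ : 0 < μ) {t : a.K} (h0 : 0 ≤ t) {r : ℝ} (h : t ≤ (r : a.K) * μ) :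
    rl μ t ≤ r :=
  (rl_mono hμ (ls_abs h0 (Ls.mono_left h (ls_real hμ r)))
    (ls_abs (h0.trans h) (ls_real hμ r)) h).trans_eq (rl_real hμ r)

theorem key (hB : S_B_APX) (E : Ext a b) {l : a.K} {z : MM Γ b} (hl : Big l)
    (hz : Ls (ln z) (E.kh l)) {ρ : ℝ}
    (hρ : ∀ t : MM Γ a, Ls (ln t) l → ρ ≤ rl (E.kh l) (ds (E.hom Γ t) z))
    {s s' : MM Γ a} (hs : Ls (ln s) l) (hs' : Ls (ln s') l) :
    ∃ m, Ls (ln m) (E.kh l) ∧ On (E.kh l) m (E.hom Γ s) z ∧ On (E.kh l) m (E.hom Γ s') z ∧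
      ρ ≤ rl (E.kh l) (ds m z) := by
  have hμ : Big (E.kh l) := E.big_iff.2 hl
  have ad : ∀ t : MM Γ a, Ls (ln t) l → Ls (ln (E.hom Γ t)) (E.kh l) := fun t ht => by
    rw [E.ln_hom]; exact E.ls_iff.2 ht
  obtain ⟨m, h1, h2⟩ := exists_median (E.hom Γ s) (E.hom Γ s') z
  obtain ⟨h2, h3⟩ := h2 _ hμ
  have hm := fin_of_on (ad s hs) hz h2
  obtain ⟨m0, k1, k2⟩ := hB Γ a b E l s s' m hl (lds hs hs') (On.of_eq hμ.pos.le h1)
  have hm0 := fin_of_on hs hs' k1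
  refine ⟨m, hm, h2, h3, (hρ m0 hm0).trans ?_⟩
  refine rl_le_add hμ.pos (fds (ad m0 hm0) hz) (fds hm hz) (ds_nonneg m (E.hom Γ m0)) k2 ?_
  linarith [ds_tri (E.hom Γ m0) m z, ds_comm m (E.hom Γ m0)]

end G_proj

open G_proj in
theorem p_G_PROJ (hB_APX : S_B_APX) :
    S_G_PROJ := by
  intro Γ a b E l z hl hz
  have hμ : Big (E.kh l) := E.big_iff.2 hl
  have ad : ∀ t : MM Γ a, Ls (ln t) l → Ls (ln (E.hom Γ t)) (E.kh l) := fun t ht => by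
    rw [E.ln_hom]; exact E.ls_iff.2 ht
  have h1 : Ls (ln (1 : MM Γ a)) l := by rw [ln_one]; exact Ls.zero hl.pos.le
  set A : Set ℝ := {r | ∃ t : MM Γ a, Ls (ln t) l ∧ r = rl (E.kh l) (ds (E.hom Γ t) z)} with hA
  have hne : A.Nonempty := ⟨_, 1, h1, rfl⟩
  have hbd : BddBelow A := ⟨0, by
    rintro _ ⟨t, -, rfl⟩
    exact rl_nonneg hμ.pos (ds_nonneg _ _)⟩
  have hρ : ∀ t : MM Γ a, Ls (ln t) l → sInf A ≤ rl (E.kh l) (ds (E.hom Γ t) z) :=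
    fun t ht => csInf_le hbd ⟨t, ht, rfl⟩
  have hseq : ∀ k : ℕ, ∃ t : MM Γ a, Ls (ln t) l ∧
      rl (E.kh l) (ds (E.hom Γ t) z) < sInf A + 1 / ((k : ℝ) + 1) := fun k => by
    obtain ⟨_, ⟨t, ht, rfl⟩, h⟩ := exists_lt_of_csInf_lt hne
      (lt_add_of_pos_right (sInf A) (Nat.one_div_pos_of_nat (n := k)))
    exact ⟨t, ht, h⟩
  choose x hx hx' using hseq
  obtain ⟨s, hs⟩ := GT.sat_ball x (fun k => ((2 * (1 / ((k : ℝ) + 1)) : ℝ) : a.K) * l) fun K =>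
    ⟨x K, fun k hk => by
      refine le_of_rl_lt hl.pos (fds (hx K) (hx k)) ?_
      obtain ⟨m, hm, m1, m2, m3⟩ := key hB_APX E hl hz hρ (hx K) (hx k)
      have e1 := r_on hμ.pos hm (ad _ (hx K)) hz m1
      have e2 := r_on hμ.pos hm (ad _ (hx k)) hz m2
      have e3 := r_tri hμ.pos (ad _ (hx K)) hm (ad _ (hx k))
      rw [E.ds_hom, E.rl_kh, ds_comm m] at e3
      have e4 := Nat.one_div_le_one_div (α := ℝ) hk
      linarith [hx' K, hx' k]⟩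
  have hsa : Ls (ln s) l :=
    fin_of_ds (hx 0) (by rw [ds_comm]; exact Ls.mono_left (hs 0) (ls_real hl.pos _))
  have hmin : rl (E.kh l) (ds (E.hom Γ s) z) ≤ sInf A := by
    refine le_of_forall_pos_le_add fun ε hε => ?_
    obtain ⟨k, hk⟩ := exists_nat_one_div_lt (show 0 < ε / 3 by positivity)
    have e1 := r_tri hμ.pos (ad _ hsa) (ad _ (hx k)) hz
    rw [E.ds_hom s, E.rl_kh] at e1
    have e2 := r_le_real hl.pos (ds_nonneg _ _) (hs k)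
    linarith [hx' k]
  refine ⟨s, ?_, fun s' => ?_⟩
  · obtain ⟨m, hm, m1, m2, m3⟩ := key hB_APX E hl hz hρ h1 hsa
    rw [map_one] at m1
    have e := r_on hμ.pos hm (ad _ hsa) hz m2
    have k := (rl_nonpos_iff hμ.pos (fds (ad _ hsa) hm)).1 (by linarith)
    rw [ds_comm] at k
    refine m1.congr k ?_ ?_ <;> rw [ds_self] <;> exact Ll.zero hμ.pos.le
  · by_cases h : Ls (ln s') l
    · refine (rl_nonpos_iff hμ.pos (ls_abs_sub (fds (ad _ hsa) hz) (fds (ad _ h) hz))).1 ?_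
      rw [rl_sub hμ.pos (fds (ad _ hsa) hz) (fds (ad _ h) hz)]
      linarith [hρ s' h]
    · refine Ll.of_nonpos (sub_nonpos.2 (not_lt.1 fun c => h ?_)) hμ.pos.le
      rw [← E.ls_iff, ← E.ln_hom]
      rw [ds_comm (E.hom Γ s')] at c
      exact fin_of_ds hz (Ls.mono_left c.le (lds (ad _ hsa) hz))

end Pool.Agent.P.MP_dba3d2_lc
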