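import Pool.Agent.P.MP_dba3d2_lc.A.Defs2

/-! Interface, chapter G: two independent copies of an ultrapower. -/

namespace Pool.Agent.P.MP_dba3d2_lc

open Filter

/-- the two copies of the ultrapower inside the double ultrapower -/
noncomputable def cp (a : Amb) : Bool → Ext (a.pow U0) ((a.pow U0).pow U0)
  | false => (a.pow U0).dg U0
  | true => (a.dg U0).pow U0

-- deps: CVX EXTGC B_APX G_I1 G_I2 G_I5 G_PROG G_BEST1 G_BEST2 G_BEST3
-- imports: Pool.Agent.P.MP_dba3d2_lc.G.Tb Pool.Agent.P.MP_dba3d2_lc.B.Tre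
def S_IND : Prop := ∀ (Γ : HG) (a : Amb),
  TwoF (fun i => ((cp a i).hom Γ).range) ∧
  ∀ x y, (cp a false).hom Γ x = (cp a true).hom Γ y → x = y ∧ x ∈ ((a.dg U0).hom Γ).range

-- deps: ELEM CVX EXTGC TWO IND
-- imports: Pool.Agent.P.MP_dba3d2_lc.G.Tb
def S_PAIR : Prop := ∀ (Γ : HG) (a : Amb) (ι κ : Type) [Finite ι] [Finite κ]
  (Q : (ι ⊕ κ → Γ.G) → Prop), Tr Q → ∀ (x : ι → MM Γ (a.pow U0)) (y : κ → MM Γ (a.pow U0)),
  St Q (Sum.elim (fun i => (cp a false).hom Γ (x i)) fun i => (cp a true).hom Γ (y i)) ↔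
  St Q (Sum.elim (fun i => (cp a true).hom Γ (x i)) fun i => (cp a false).hom Γ (y i))

end Pool.Agent.P.MP_dba3d2_lc
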