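import Pool.Agent.P.MP_dba3d2_lc.G.Defs

/-! Interface, chapter G, second layer. -/

namespace Pool.Agent.P.MP_dba3d2_lc

open Filter

-- deps:
-- imports: Pool.Agent.P.MP_dba3d2_lc.G.Tb
def S_G_FAC : Prop := ∀ (Γ : HG) (a : Amb) (t : a.K) (x : MM Γ ((a.pow U0).pow U0))
  (p0 q0 p1 q1 : MM Γ (a.pow U0)),
  ds (x * (cp a true).hom Γ p1) ((cp a false).hom Γ p0) ≤ (cp a false).kh ((a.dg U0).kh t) →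
  ds (x * (cp a true).hom Γ q1) ((cp a false).hom Γ q0) ≤ (cp a false).kh ((a.dg U0).kh t) →
  ∃ y w : MM Γ (a.pow U0),
    ds ((cp a false).hom Γ y * (cp a true).hom Γ w * (cp a true).hom Γ p1) ((cp a false).hom Γ p0) ≤
      3 * (cp a false).kh ((a.dg U0).kh t) ∧
    ds ((cp a false).hom Γ y * (cp a true).hom Γ w * (cp a true).hom Γ q1) ((cp a false).hom Γ q0) ≤
      3 * (cp a false).kh ((a.dg U0).kh t)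

-- deps: CVX EXTGC B_SMALL B_APX G_FAC
-- imports: Pool.Agent.P.MP_dba3d2_lc.G.Tb Pool.Agent.P.MP_dba3d2_lc.B.Fix
def S_G_I1 : Prop := ∀ (Γ : HG) (a : Amb) (μ : ((a.pow U0).pow U0).K), Big μ →
  ∀ u ∈ cF Γ a false, ∀ v ∈ cF Γ a true, Ls (ln u) μ → Ls (ln v) μ → ∀ x p q,
    Ov μ p q 1 u x (x * v) → ¬ Per μ p q → ∃ g ∈ cF Γ a false, ∃ g' ∈ cF Γ a true, x = g * g'

-- deps:
-- imports: Pool.Agent.P.MP_dba3d2_lc.G.Tb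
def S_G_I2 : Prop := ∀ (Γ : HG) (a : Amb) (c0 c1 : MM Γ (a.pow U0)) (x : MM Γ ((a.pow U0).pow U0)),
  Prim c1 → Cj x ((cp a true).hom Γ c1) ((cp a false).hom Γ c0) →
  ∃ c ∈ dM Γ a, Prim c ∧ ∃ g g' : MM Γ (a.pow U0), Cj g c c0 ∧ Cj g' c c1

-- deps: TORS ELEM CVX EXTGC ROOT RIG
-- imports: Pool.Agent.P.MP_dba3d2_lc.G.Tb Pool.Agent.P.MP_dba3d2_lc.B.Axis
def S_G_I5 : Prop := ∀ (Γ : HG) (a : Amb) (i : Bool) (x c c' : MM Γ (a.pow U0)), x ∉ dM Γ a →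
  Prim c → Prim c' → Cj ((cp a (!i)).hom Γ x) ((cp a i).hom Γ c') ((cp a i).hom Γ c) → c ∈ dM Γ a

-- deps:
-- imports: Pool.Agent.P.MP_dba3d2_lc.G.Tb
def S_G_PROG : Prop := ∀ (Γ : HG) (a : Amb) (i : Bool) (y : MM Γ (a.pow U0)), Bst (dM Γ a) y⁻¹ →
  NM (cF Γ a (!i)) (cF Γ a false ⊓ cF Γ a true) ((cp a i).hom Γ y)

-- deps: B_APX
-- imports: Pool.Agent.P.MP_dba3d2_lc.G.Tb Pool.Agent.P.MP_dba3d2_lc.B.Tre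
def S_G_PROJ : Prop := ∀ (Γ : HG) (a b : Amb) (E : Ext a b) (l : a.K) (z : MM Γ b), Big l →
  Ls (ln z) (E.kh l) → ∃ s : MM Γ a, On (E.kh l) (E.hom Γ s) 1 z ∧
    ∀ s' : MM Γ a, Ll (ds (E.hom Γ s) z - ds (E.hom Γ s') z) (E.kh l)

-- deps:
-- imports: Pool.Agent.P.MP_dba3d2_lc.G.Tb
def S_G_LEAST : Prop := ∀ (Γ : HG) (a b : Amb) (E : Ext a b) (ι : Type)
  (D : (ι → MM Γ a) → b.K) (C : Set (ι → MM Γ a)), C.Countable →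
  (∀ x, 0 < D x) → (∀ x, Old E (D x)) →
  (∀ x y, (∀ i, Ls (E.kh (ds (x i) (y i))) (D y)) → Ls (D x) (D y)) →
  (∀ x y i, Ls (E.kh (ds (x i) (y i))) (D x + D y)) →
  (∀ x, ∃ y ∈ C, Ls (D y) (D x)) → ∃ x, ∀ y, Ls (D x) (D y)

-- deps: G_PROJ G_LEAST
-- imports: Pool.Agent.P.MP_dba3d2_lc.G.Tb
def S_G_BEST1 : Prop := ∀ (Γ : HG) (a : Amb) (z : MM Γ (a.pow U0)),
  ∃ s ∈ dM Γ a, Bst (dM Γ a) (s⁻¹ * z)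

-- deps: ELEM PERC ROOT
-- imports: Pool.Agent.P.MP_dba3d2_lc.B.Axis2
def S_G_COH : Prop := ∀ (Γ : HG) (a : Amb) (H : Subgroup (MM Γ a)), GC0 H →
  (∀ y, y ∉ H → ¬ ExpT H y → ∀ u ∈ H, ∀ u' ∈ H, ∀ v ∈ H, ∀ v' ∈ H,
    Ls (ds u v) (ds u (y * u') + ds v (y * v')) ∧ Ls (ds u' v') (ds u (y * u') + ds v (y * v'))) ∧
  (∀ c, Prim c → c ∉ H → ∀ s ∈ H, ∀ t ∈ H, Ls (ds s t) (ds s (c * s) + ds t (c * t))) ∧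
  ∀ c d s t : MM Γ a, ¬ IsOfFinOrder c → ¬ IsOfFinOrder d → Ep c ≠ Ep d →
    Ls (ds s t) (ds s (c * s) + ds s (d * s) + (ds t (c * t) + ds t (d * t)))

-- deps: TORS ELEM CVX EXTGC ROOT G_COH
-- imports: Pool.Agent.P.MP_dba3d2_lc.G.Tb Pool.Agent.P.MP_dba3d2_lc.B.Axis
def S_G_COIN : Prop := ∀ (Γ : HG) (a : Amb) (y : MM Γ (a.pow U0)), y ∉ dM Γ a →
  ¬ ExpT (dM Γ a) y → ∃ C : Set (MM Γ a × MM Γ a), C.Countable ∧ ∀ u u' : MM Γ a,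
    Old (a.dg U0) (ds ((a.dg U0).hom Γ u) (y * (a.dg U0).hom Γ u')) → ∃ v ∈ C,
      Ls (ds ((a.dg U0).hom Γ v.1) (y * (a.dg U0).hom Γ v.2))
        (ds ((a.dg U0).hom Γ u) (y * (a.dg U0).hom Γ u'))

-- deps: CVX EXTGC G_PROJ G_LEAST G_COH G_COIN
-- imports: Pool.Agent.P.MP_dba3d2_lc.G.Tb Pool.Agent.P.MP_dba3d2_lc.B.Tre
def S_G_BEST2 : Prop := ∀ (Γ : HG) (a : Amb) (y : MM Γ (a.pow U0)), y ∉ dM Γ a →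
  ¬ ExpT (dM Γ a) y → ∃ s ∈ dM Γ a, ∃ s' ∈ dM Γ a,
    Bst (dM Γ a) (s * y * s')⁻¹ ∧ Bst (dM Γ a) (s * y * s')

-- deps: CVX EXTGC ROOT G_LEAST G_COH
-- imports: Pool.Agent.P.MP_dba3d2_lc.G.Tb
def S_G_LE3 : Prop := ∀ (Γ : HG) (a : Amb) (c : MM Γ (a.pow U0)), Prim c → c ∉ dM Γ a →
  (∀ s ∈ dM Γ a, Old (a.dg U0) (ds s (c * s))) →
  ∃ s ∈ dM Γ a, ∀ t ∈ dM Γ a, Ls (ds s (c * s)) (ds t (c * t))

-- deps: ELEM LINE CVX NORM G_PROJ G_BEST1 G_LE3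
-- imports: Pool.Agent.P.MP_dba3d2_lc.G.Tb Pool.Agent.P.MP_dba3d2_lc.B.Axis
def S_G_BEST3 : Prop := ∀ (Γ : HG) (a : Amb) (c y : MM Γ (a.pow U0)), Prim c → Cen c →
  y⁻¹ * c * y ∉ dM Γ a → ∃ f ∈ Ep c, ∃ s ∈ dM Γ a,
    Bst (dM Γ a) (f * y * s)⁻¹ ∧ NE c (f * y * s)⁻¹

end Pool.Agent.P.MP_dba3d2_lc
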