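import Pool.Agent.P.MP_dba3d2_lc.G.Iface
import Pool.Agent.P.MP_dba3d2_lc.B.Iface
import Pool.Agent.P.MP_dba3d2_lc.B.Iface2
import Pool.Agent.P.MP_dba3d2_lc.G.Iface2
import Pool.Agent.P.MP_dba3d2_lc.G.Tb
import Pool.Agent.P.MP_dba3d2_lc.B.Tre
import Pool.Agent.P.MP_dba3d2_lc.B.Fix

/-! Step IND of the stability project. -/

namespace Pool.Agent.P.MP_dba3d2_lc

open Filter

namespace Ind
open Pool.Agent.P.MP_dba3d2_lc.GT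

variable {Γ : HG} {a b : Amb}

theorem ne_hom (hA : S_B_APX) (E : Ext a b) {c y : MM Γ a} (h : NE c y) :
    NE (E.hom Γ c) (E.hom Γ y) := by
  intro h1 h2 ⟨q, k1, k2, k3, k4⟩
  rw [E.ln_hom] at h1 h2 k1 k2 k3 k4
  rw [E.md_hom, E.ll_iff] at h2
  rw [E.big_iff] at h1
  rw [← map_inv, ← map_one (E.hom Γ)] at k2
  obtain ⟨q0, l1, l2⟩ := hA Γ a b E (ln y) 1 y⁻¹ q h1 (Ls.of_le (by simp [ds])) k2
  change Ll _ (E.kh (ln y)) at l2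
  have h0 : 0 < E.kh (ln y) := (kh_pos E).2 h1.pos
  refine h h1 h2 ⟨q0, ?_, l1, ?_⟩
  · rw [← E.ls_iff, ← E.ln_hom q0]
    refine k1.of_le_add l2 h0 1 ?_
    have := ds_tri 1 (E.hom Γ q0) q
    rw [ds_comm (E.hom Γ q0) q] at this
    simpa [ds] using this
  · rw [← stab_hom E, map_one]
    exact ⟨k3, fix_congr k4 l2⟩

theorem expT_hom (E : Ext a b) {M : Subgroup (MM Γ a)} {y : MM Γ a} (h : ExpT M y) :
    ExpT (M.map (E.hom Γ)) (E.hom Γ y) := by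
  obtain ⟨m, h1, m', h2, c, h3, h4, f, h5, rfl⟩ := h
  exact ⟨_, ⟨m, h1, rfl⟩, _, ⟨m', h2, rfl⟩, _, ⟨c, h3, rfl⟩, E.prim_iff.2 h4, _, (memEp_hom E).2 h5,
    by rw [map_mul, map_mul]⟩

end Ind

open Pool.Agent.P.MP_dba3d2_lc.GT in
theorem p_IND (hCVX : S_CVX) (hEXTGC : S_EXTGC) (hB_APX : S_B_APX) (hG_I1 : S_G_I1) (hG_I2 : S_G_I2) (hG_I5 : S_G_I5) (hG_PROG : S_G_PROG) (hG_BEST1 : S_G_BEST1) (hG_BEST2 : S_G_BEST2) (hG_BEST3 : S_G_BEST3) :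
    S_IND := by
  intro Γ a
  refine ⟨⟨fun i => (gc_range _ hCVX hEXTGC).toGC0, ?_, hG_I1 Γ a, ?_, ?_, ?_, ?_, ?_⟩,
    fun x y h => cp_int h⟩
  · have := (hEXTGC Γ _ _ (cp a false) _).1 (gc_range (Γ := Γ) (a.dg U0) hCVX hEXTGC).toGC0
    rwa [← inf_eq] at this
  · rintro _ ⟨c0, rfl⟩ _ ⟨c1, rfl⟩ - h1 x h
    obtain ⟨c, k1, k2, g, g', k3, k4⟩ := hG_I2 Γ a c0 c1 x ((cp a true).prim_iff.1 h1) h
    refine ⟨_, (mem_inf false).2 k1, (cp a false).prim_iff.2 k2, _, ⟨g, rfl⟩, _, ⟨g', rfl⟩,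
      (cj_hom _).2 k3, ?_⟩
    rw [cp_dM false true k1]
    exact (cj_hom _).2 k4
  · rintro i _ ⟨x, rfl⟩ hx _ ⟨c, rfl⟩ _ ⟨c', rfl⟩ h1 h2 h
    exact (mem_inf i).2 (hG_I5 Γ a i x c c' (mt (mem_inf (!i)).2 hx) ((cp a i).prim_iff.1 h1)
      ((cp a i).prim_iff.1 h2) h)
  · rintro i _ ⟨y, rfl⟩ -
    obtain ⟨s, h1, h2⟩ := hG_BEST1 Γ a y⁻¹
    refine ⟨_, (mem_inf i).2 h1, ?_⟩
    rw [← map_mul]
    exact hG_PROG Γ a i _ (by rwa [mul_inv_rev])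
  · rintro i _ ⟨y, rfl⟩ hy he
    obtain ⟨s, h1, s', h2, h3, h4⟩ := hG_BEST2 Γ a y (mt (mem_inf i).2 hy) fun k => he (by
      have := Ind.expT_hom (cp a i) k
      rwa [← inf_eq] at this)
    refine ⟨_, (mem_inf i).2 h1, _, (mem_inf i).2 h2, ?_⟩
    rw [← map_mul, ← map_mul, ← map_inv]
    exact ⟨hG_PROG Γ a i _ h3, hG_PROG Γ a i _ (by rwa [inv_inv])⟩
  · rintro i _ ⟨c, rfl⟩ h1 h2 _ ⟨y, rfl⟩ hy
    rw [← map_inv, ← map_mul, ← map_mul] at hy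
    obtain ⟨f, k1, s, k2, k3, k4⟩ := hG_BEST3 Γ a c y ((cp a i).prim_iff.1 h1) ((cen_hom _).1 h2)
      (mt (mem_inf i).2 hy)
    refine ⟨_, ⟨f, rfl⟩, (memEp_hom _).2 k1, _, (mem_inf i).2 k2, ?_⟩
    rw [← map_mul, ← map_mul, ← map_inv]
    exact ⟨hG_PROG Γ a i _ k3, Ind.ne_hom hB_APX _ k4⟩

end Pool.Agent.P.MP_dba3d2_lc
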