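import Pool.Agent.P.MP_dba3d2_lc.G.Iface
import Pool.Agent.P.MP_dba3d2_lc.A.Iface
import Pool.Agent.P.MP_dba3d2_lc.B.Iface
import Pool.Agent.P.MP_dba3d2_lc.C.Iface
import Pool.Agent.P.MP_dba3d2_lc.G.Tb

/-! Step PAIR of the stability project. -/

namespace Pool.Agent.P.MP_dba3d2_lc

open Filter

namespace Pair
open Pool.Agent.P.MP_dba3d2_lc.GT

variable {Γ : HG} {a : Amb}

theorem finc {P X Y : Subgroup (MM Γ a)} (h : FinRed P X Y) (hX : FinC X) (hY : FinC Y)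
    (lX : X ≤ P) (lY : Y ≤ P) : FinC P := by
  intro K hK hf
  obtain ⟨p, hp, h⟩ := h K hK hf
  have key : ∀ Z : Subgroup (MM Γ a), FinC Z → Z ≤ P → (∀ k ∈ K, p⁻¹ * k * p ∈ Z) →
      ∃ p ∈ P, ∀ k ∈ K, p⁻¹ * k * p ∈ std Γ a := fun Z hZ lZ hk => by
    obtain ⟨q, hq, h⟩ := hZ (K.map (MulAut.conj p⁻¹).toMonoidHom)
      (by rintro _ ⟨k, h, rfl⟩; simpa using hk k h)
      (Finite.of_surjective _ (MonoidHom.subgroupMap_surjective _ K))
    refine ⟨p * q, P.mul_mem hp (lZ hq), fun k h' => ?_⟩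
    have := h _ ⟨k, h', rfl⟩
    simpa [mul_assoc] using this
  exact h.elim (key X hX lX) (key Y hY lY)

/-- the exchange of the two copies, on one copy -/
noncomputable def sw (Γ : HG) (a : Amb) (i j : Bool) : cF Γ a i →* MM Γ ((a.pow U0).pow U0) :=
  ((cp a j).hom Γ).comp (MonoidHom.ofInjective (cp a i).hom_injective).symm.toMonoidHom

theorem sw_apply (i j : Bool) (x : MM Γ (a.pow U0)) (h : (cp a i).hom Γ x ∈ cF Γ a i) :
    sw Γ a i j ⟨_, h⟩ = (cp a j).hom Γ x :=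
  congrArg ((cp a j).hom Γ)
    ((MonoidHom.ofInjective (cp a i).hom_injective).symm_apply_eq.2 (Subtype.ext rfl))

theorem invol {G : Type} [Group G] {X Y : Subgroup G} (θ : ↥(X ⊔ Y) →* G)
    (h : ∀ g (hg : g ∈ X ⊔ Y), g ∈ X ∨ g ∈ Y → ∃ k : θ ⟨g, hg⟩ ∈ X ⊔ Y, θ ⟨_, k⟩ = g) :
    Function.Injective θ ∧ θ.range = X ⊔ Y := by
  have key : ∀ g (hg : g ∈ X ⊔ Y), ∃ k : θ ⟨g, hg⟩ ∈ X ⊔ Y, θ ⟨_, k⟩ = g := fun g hg => by
    have e : X ⊔ Y = Subgroup.closure ((X : Set G) ∪ Y) := Subgroup.sup_eq_closure X Y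
    have hg' : g ∈ Subgroup.closure ((X : Set G) ∪ Y) := e ▸ hg
    induction hg' using Subgroup.closure_induction with
    | mem x hx => exact h x hg hx
    | one => exact ⟨(map_one θ).symm ▸ one_mem _, (congrArg θ (Subtype.ext (map_one θ))).trans (map_one θ)⟩
    | mul x y hx hy ix iy =>
      obtain ⟨k1, l1⟩ := ix (e ▸ hx)
      obtain ⟨k2, l2⟩ := iy (e ▸ hy)
      have m := map_mul θ ⟨x, e ▸ hx⟩ ⟨y, e ▸ hy⟩
      refine ⟨m.symm ▸ mul_mem k1 k2, ?_⟩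
      have m2 := map_mul θ ⟨_, k1⟩ ⟨_, k2⟩
      rw [l1, l2] at m2
      exact (congrArg θ (Subtype.ext m)).trans m2
    | inv x hx ix =>
      obtain ⟨k1, l1⟩ := ix (e ▸ hx)
      have m := map_inv θ ⟨x, e ▸ hx⟩
      refine ⟨m.symm ▸ inv_mem k1, ?_⟩
      have m2 := map_inv θ ⟨_, k1⟩
      rw [l1] at m2
      exact (congrArg θ (Subtype.ext m)).trans m2
  refine ⟨fun p q e => Subtype.ext ?_, le_antisymm ?_ fun g hg => ?_⟩
  · obtain ⟨k1, l1⟩ := key p p.2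
    obtain ⟨k2, l2⟩ := key q q.2
    exact l1.symm.trans ((congrArg θ (Subtype.ext e)).trans l2)
  · rintro _ ⟨p, rfl⟩
    exact (key p p.2).1
  · exact ⟨_, (key g hg).2⟩

end Pair

open Pool.Agent.P.MP_dba3d2_lc.GT in
theorem p_PAIR (hELEM : S_ELEM) (hCVX : S_CVX) (hEXTGC : S_EXTGC) (hTWO : S_TWO) (hIND : S_IND) :
    S_PAIR := by
  intro Γ a ι κ _ _ Q hQ x y
  have T : TwoOut (cF Γ a false) (cF Γ a true) := hTWO Γ _ _ (hIND Γ a).1
  have hP : GC (cF Γ a false ⊔ cF Γ a true) := ⟨T.gc, Pair.finc T.fin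
    (gc_range _ hCVX hEXTGC).finc (gc_range _ hCVX hEXTGC).finc le_sup_left le_sup_right⟩
  obtain ⟨θ, h0, h1⟩ := T.ext _ (Pair.sw Γ a false true) (Pair.sw Γ a true false)
    (by
      rintro ⟨_, u, rfl⟩ ⟨_, v, rfl⟩ h
      obtain ⟨rfl, k⟩ := cp_int h
      rw [Pair.sw_apply, Pair.sw_apply]
      exact cp_dM _ _ k)
    (by
      rintro c hc hf ⟨_, u, rfl⟩ ⟨_, v, rfl⟩ hu hv
      obtain ⟨c, rfl⟩ := hc.1
      have k := (mem_inf false).1 hc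
      rw [Pair.sw_apply, Pair.sw_apply]
      refine (hELEM Γ _ _ hf).2.2.2.2.2.2.2.1 _ ?_ _ ?_
      · rw [cp_dM false true k, memEp_hom]
        exact (memEp_hom _).1 hu
      · rw [cp_dM false true k] at hv
        exact (memEp_hom _).2 ((memEp_hom _).1 hv))
  have e0 : ∀ u h, θ ⟨(cp a false).hom Γ u, h⟩ = (cp a true).hom Γ u := fun u _ =>
    (h0 ⟨_, u, rfl⟩).trans (Pair.sw_apply _ _ _ _)
  have e1 : ∀ u h, θ ⟨(cp a true).hom Γ u, h⟩ = (cp a false).hom Γ u := fun u _ =>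
    (h1 ⟨_, u, rfl⟩).trans (Pair.sw_apply _ _ _ _)
  have m0 : ∀ u, (cp a false).hom Γ u ∈ cF Γ a false ⊔ cF Γ a true := fun u =>
    Subgroup.mem_sup_left ⟨u, rfl⟩
  have m1 : ∀ u, (cp a true).hom Γ u ∈ cF Γ a false ⊔ cF Γ a true := fun u =>
    Subgroup.mem_sup_right ⟨u, rfl⟩
  obtain ⟨hi, hr⟩ := Pair.invol θ (by
    rintro g hg (⟨u, rfl⟩ | ⟨u, rfl⟩)
    · exact ⟨(e0 u hg).symm ▸ m1 u, (congrArg θ (Subtype.ext (e0 u hg))).trans (e1 u (m1 u))⟩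
    · exact ⟨(e1 u hg).symm ▸ m0 u, (congrArg θ (Subtype.ext (e1 u hg))).trans (e0 u (m0 u))⟩)
  have k := hQ _ _ _ θ hP (hr.symm ▸ hP) hi
    (Sum.elim (fun i => ⟨_, m0 (x i)⟩) fun i => ⟨_, m1 (y i)⟩)
  refine (iff_of_eq (congrArg (St Q) (funext fun s => ?_))).trans
    (k.trans (iff_of_eq (congrArg (St Q) (funext fun s => ?_))))
  · cases s <;> rfl
  · cases s
    · exact e0 _ _
    · exact e1 _ _

end Pool.Agent.P.MP_dba3d2_lc
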